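import Pool.Agent.H31.IU.Shr
import Pool.Agent.H31.IN.Defs
import Pool.Agent.H80.AJ.Porous

/-!
# THEOREM UD for Julia set = sphere, INI: thick points of `E` with a regular orbit

As `H31/IN/Tka`, with `E ⊆ oU f U k` in place of `J ⊆ dm f U J δ k`.
-/

set_option autoImplicit false

open Filter Topology Metric Set MeasureTheory

namespace Pool.Agent.H78.UX.IN

open Pool.Agent.H56.UD Pool.Agent.H31.IN

variable {f : ℂ → ℂ} {U P Cr E : Set ℂ} {δ b0 : ℝ} {η : ℂ → ℂ → ℂ} {ρ : ℝ} {X hh μ : ℂ → ℂ}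

private theorem tka_null (E : Set ℂ) : volume {z | z ∈ E ∧ ¬ Tk E z} = 0 := by
  refine Pool.Agent.H80.AJ.porous_null fun z hz => ?_
  have hz2 := hz.2
  unfold Tk at hz2
  push Not at hz2
  obtain ⟨M, c, hc, hz3⟩ := hz2
  obtain ⟨T, hT⟩ : ∃ T, T = max M 0 + c := ⟨_, rfl⟩
  have hT0 : 0 < T := by
    have := le_max_right M 0
    linarith
  refine ⟨c / T, by positivity, fun ρ0 hρ0 => ?_⟩
  obtain ⟨σ, w, hσ, hσ2, hw, he⟩ := hz3 (ρ0 / T) (by positivity)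
  have hσ0 : 0 < ‖σ‖ := norm_pos_iff.2 hσ
  have h1 : c / T * (T * ‖σ‖) = c * ‖σ‖ := by field_simp
  refine ⟨T * ‖σ‖, by positivity, ?_, z + σ * w, ?_, ?_⟩
  · rw [lt_div_iff₀ hT0] at hσ2
    linarith
  · rw [h1]
    intro u hu
    rw [mem_ball, dist_eq_norm] at hu ⊢
    have h2 : u - z = (u - (z + σ * w)) + σ * w := by ring
    have h3 : ‖σ * w‖ ≤ ‖σ‖ * max M 0 := by
      rw [norm_mul]
      exact mul_le_mul_of_nonneg_left (hw.trans (le_max_left _ _)) hσ0.le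
    calc ‖u - z‖ ≤ ‖u - (z + σ * w)‖ + ‖σ * w‖ := by
          rw [h2]
          exact norm_add_le _ _
      _ < c * ‖σ‖ + ‖σ‖ * max M 0 := add_lt_add_of_lt_of_le hu h3
      _ = T * ‖σ‖ := by
          rw [hT]
          ring
  · intro u hu hu2
    rw [h1, mem_ball, dist_eq_norm] at hu
    exact absurd hu (not_lt.2 (he u hu2.1))

private theorem tka_fin (h : SS f U P Cr δ η ρ) (hX : SX f U P E X hh μ b0) (k : ℕ) :
    {z | z ∈ E ∧ deriv (f^[k]) z = 0}.Finite := by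
  by_contra hinf
  obtain ⟨y, hy, hacc⟩ := Set.Infinite.exists_accPt_of_subset_isCompact (hinf : Set.Infinite _)
    hX.Ec fun z hz => hz.1
  rw [accPt_iff_frequently_nhdsNE] at hacc
  have ho := ou_open h k
  have hyd : y ∈ oU f U k := fun j _ => hX.EU y hy j
  have han : AnalyticAt ℂ (deriv (f^[k])) y := ((ou_diff h k).analyticAt (ho.mem_nhds hyd)).deriv
  have hz0 : ∀ᶠ z in 𝓝 y, deriv (f^[k]) z = 0 :=
    han.frequently_zero_iff_eventually_zero.1 (hacc.mono fun z hz => hz.2)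
  obtain ⟨r, hr, hrs⟩ := Metric.eventually_nhds_iff_ball.1 (hz0.and (ho.mem_nhds hyd))
  have hconst : ∀ a ∈ ball y r, ∀ b ∈ ball y r, f^[k] a = f^[k] b := fun a ha b hb =>
    isOpen_ball.is_const_of_deriv_eq_zero (convex_ball y r).isPreconnected
      ((ou_diff h k).mono fun z hz => (hrs z hz).2) (fun z hz => (hrs z hz).1) ha hb
  obtain ⟨N, hN⟩ := h.leo (ball y r) isOpen_ball ⟨y, mem_ball_self hr⟩ 2
  have ha : (0 : ℂ) ∈ ball (0 : ℂ) 2 := mem_ball_self two_pos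
  have hb : (1 : ℂ) ∈ ball (0 : ℂ) 2 := by
    rw [mem_ball_zero_iff, norm_one]
    norm_num
  obtain ⟨u, hu, hua⟩ := hN (N + k) (by omega) ha
  obtain ⟨v, hv, hvb⟩ := hN (N + k) (by omega) hb
  refine zero_ne_one (α := ℂ) ?_
  rw [← hua, ← hvb, Function.iterate_add_apply, Function.iterate_add_apply,
    hconst u hu.1 v hv.1]

theorem ex_z (h : SS f U P Cr δ η ρ) (hX : SX f U P E X hh μ b0) :
    ∃ z ∈ E, (∀ k : ℕ, deriv (f^[k]) z ≠ 0) ∧ Tk E z := by
  by_contra hcon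
  push Not at hcon
  have hsub : E ⊆ {z | z ∈ E ∧ ¬ Tk E z} ∪ ⋃ k : ℕ, {z | z ∈ E ∧ deriv (f^[k]) z = 0} := by
    intro z hz
    by_cases hk : ∀ k : ℕ, deriv (f^[k]) z ≠ 0
    · exact Or.inl ⟨hz, hcon z hz hk⟩
    · push Not at hk
      obtain ⟨k, hk⟩ := hk
      exact Or.inr (mem_iUnion.2 ⟨k, hz, hk⟩)
  have h0 : volume (⋃ k : ℕ, {z | z ∈ E ∧ deriv (f^[k]) z = 0}) = 0 :=
    (countable_iUnion fun k => (tka_fin h hX k).countable).measure_zero volume
  have h1 : volume E = 0 := measure_mono_null hsub (measure_union_null (tka_null E) h0)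
  exact hX.Ep.ne' h1

end Pool.Agent.H78.UX.IN
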