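import Pool.Agent.H31.IU.Zer
import Pool.Agent.H31.IU.Tka

/-!
# THEOREM UD for Julia set = sphere, INI: base data

As `H31/IN/Bas`, with `to_P`: the orbit of `z` tends to `P`; for the finitely many other times `r k = δ0`.
-/

set_option autoImplicit false

open Filter Topology Metric Set MeasureTheory

namespace Pool.Agent.H78.UX.IN

open Pool.Agent.H56.UD Pool.Agent.H31.IN Pool.Agent.H43.UB

variable {f : ℂ → ℂ} {U P Cr E : Set ℂ} {δ b0 : ℝ} {η : ℂ → ℂ → ℂ} {ρ : ℝ} {X hh μ : ℂ → ℂ}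

theorem base (h : SS f U P Cr δ η ρ) (hX : SX f U P E X hh μ b0) {θ C : ℝ} (hθ : 0 < θ) (hθ1 : θ < 1) (hC : 1 ≤ C)
    {𝒰 : Ultrafilter ℕ} (h𝒰 : (𝒰 : Filter ℕ) ≤ atTop) :
    ∃ (δ0 : ℝ) (z : ℂ) (x : ℕ → ℂ) (r : ℕ → ℝ) (σ : ℕ → ℂ) (M ρ0 : ℝ) (χ φ β : ℕ → ℂ → ℂ) (v : ℕ → ℂ),
      Bs 𝒰 f U P P E δ θ C δ0 z x r σ M ρ0 χ φ β v := by
  obtain ⟨z, hzE, hdz, htk⟩ := ex_z h hX
  obtain ⟨δ0, hδ0e⟩ : ∃ δ0 : ℝ, δ0 = δ / 2 := ⟨_, rfl⟩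
  have hδ0 : 0 < δ0 := by
    rw [hδ0e]
    exact half_pos h.hδ
  have hδ : δ0 ≤ δ := by
    have h2 := h.hδ
    linarith
  have hzU : ∀ k : ℕ, z ∈ oU f U k := fun k j _ => hX.EU z hzE j
  obtain ⟨N, hN⟩ := to_P h hX (half_pos h.hδ)
  have hnear : ∀ᶠ k in (𝒰 : Filter ℕ), f^[k] z ∈ thickening (δ / 2) P := by
    filter_upwards [h𝒰 (eventually_ge_atTop N)] with k hk
    exact hN k hk z hzE
  have hth : thickening (δ / 2) P ⊆ thickening δ P := thickening_mono (by have := h.hδ; linarith) P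
  have hxe : ∀ k : ℕ, ∃ x ∈ P, ∀ y ∈ P, ‖f^[k] z - x‖ ≤ ‖f^[k] z - y‖ := by
    intro k
    obtain ⟨x, hx, hx2⟩ := h.Pc.exists_infDist_eq_dist h.Pn (f^[k] z)
    refine ⟨x, hx, fun y hy => ?_⟩
    have h1 := infDist_le_dist_of_mem (x := f^[k] z) hy
    rw [hx2, dist_eq_norm, dist_eq_norm] at h1
    exact h1
  choose x hxP hxn using hxe
  have hre : ∀ k : ℕ, ∃ r : ℝ, 0 < r ∧ r ≤ δ0 ∧ (f^[k] z ∈ thickening (δ / 2) P →
      Sm1 f U P P δ θ C z k (x k) r ∨ Sm2 f U P δ z k r) ∧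
      (∀ t : ℝ, 2 * r ≤ t → t ≤ δ0 → ¬ Sm1 f U P P δ θ C z k (x k) t) ∧
      (f^[k] z ∈ thickening (δ / 2) P → ∀ t : ℝ, 2 * r ≤ t → t ≤ δ0 → ¬ Sm2 f U P δ z k t) := by
    intro k
    by_cases hk : f^[k] z ∈ thickening (δ / 2) P
    · obtain ⟨r, h1, h2, h3, h4⟩ := scl h θ C hδ0 (ou_dm (hzU k) (hth hk)) (hdz k) (x k)
      exact ⟨r, h1, h2, fun _ => h3, fun t ht ht2 => (h4 t ht ht2).1, fun _ t ht ht2 => (h4 t ht ht2).2⟩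
    · refine ⟨δ0, hδ0, le_rfl, fun h1 => absurd h1 hk, fun t ht ht2 => ?_, fun h1 => absurd h1 hk⟩
      exfalso
      linarith
  choose r hr0 hrδ hrs hrn hrn2 using hre
  have rt : Tendsto r (𝒰 : Filter ℕ) (𝓝 0) :=
    zer h hX hθ hθ1 hC h𝒰 hδ0 hδ hzE (hnear.mono fun k hk => hth hk) hxP (fun k => ⟨hr0 k, hrδ k⟩)
      (hnear.mono fun k hk => hrs k hk)
  have dx : ∀ᶠ k in (𝒰 : Filter ℕ), ‖f^[k] z - x k‖ < 2 * r k := by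
    filter_upwards [rt.eventually (gt_mem_nhds (half_pos hδ0)), hnear] with k hk hk2
    exact sm_dx h hδ0 hδ0e.le (hzU k) hk2 (hxn k) (hr0 k) (by linarith) (hrn2 k hk2)
  obtain ⟨M, ρ0, hM, hρ0, hun⟩ := sm_un hθ hθ1 hC
  have hun' : ∀ k : ℕ, ∃ (χ φ β : ℂ → ℂ) (v : ℂ), (‖f^[k] z - x k‖ < 2 * r k ∧ f^[k] z ∈ thickening (δ / 2) P) →
      Un f U P δ θ z k (x k) (r k) M ρ0 χ φ β v := by
    intro k
    by_cases hk : ‖f^[k] z - x k‖ < 2 * r k ∧ f^[k] z ∈ thickening (δ / 2) P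
    · obtain ⟨χ, φ, β, v, h1⟩ := hun (hr0 k) hk.1 (hrs k hk.2)
      exact ⟨χ, φ, β, v, fun _ => h1⟩
    · exact ⟨id, id, id, 0, fun h1 => absurd h1 hk⟩
  choose χ φ β v hv using hun'
  have un : ∀ᶠ k in (𝒰 : Filter ℕ), Un f U P δ θ z k (x k) (r k) M ρ0 (χ k) (φ k) (β k) (v k) := by
    filter_upwards [dx, hnear] with k hk hk2
    exact hv k ⟨hk, hk2⟩
  obtain ⟨σ, hσ⟩ : ∃ σ : ℕ → ℂ, σ = fun k => if deriv (φ k) 0 = 0 then 1 else deriv (φ k) 0 := ⟨_, rfl⟩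
  have s0 : ∀ k, σ k ≠ 0 := by
    intro k
    rw [hσ]
    show (if deriv (φ k) 0 = 0 then (1 : ℂ) else deriv (φ k) 0) ≠ 0
    by_cases h1 : deriv (φ k) 0 = 0
    · rw [if_pos h1]
      exact one_ne_zero
    · rwa [if_neg h1]
  have se : ∀ᶠ k in (𝒰 : Filter ℕ), σ k = deriv (φ k) 0 := by
    filter_upwards [un] with k hk
    have h1 : deriv (φ k) 0 ≠ 0 := uh_der isOpen_ball hk.pu.diff hk.pu.inj (mem_ball_self one_pos)
    rw [hσ]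
    show (if deriv (φ k) 0 = 0 then (1 : ℂ) else deriv (φ k) 0) = deriv (φ k) 0
    rw [if_neg h1]
  have hM0 : 0 < M := by linarith
  have hsm : ∀ᶠ k in (𝒰 : Filter ℕ), M * r k ≤ δ0 := by
    filter_upwards [rt.eventually (gt_mem_nhds (div_pos hδ0 hM0))] with k hk
    rw [lt_div_iff₀ hM0] at hk
    linarith
  have st0 : Tendsto (fun k => deriv (φ k) 0) (𝒰 : Filter ℕ) (𝓝 0) := by
    refine shk h h𝒰 (δ1 := δ0) (B := ‖z‖) hρ0 (y := x) (v := v) ?_ ?_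
    · filter_upwards [un, hsm] with k hk hk2
      refine ⟨hk.pu.diff, hk.pu.inj, fun u hu => ?_⟩
      obtain ⟨h1, h2⟩ := hk.pu.val u hu
      rw [h2]
      refine (hk.cb _ (mem_ball_zero_iff.2 (bt_lt hθ hθ1 hk.pu (mem_ball_zero_iff.1 hu)))).trans hk2
    · filter_upwards [un] with k hk
      exact ⟨hk.vb, le_of_eq (by rw [hk.vz])⟩
  refine ⟨δ0, z, x, r, σ, M, ρ0, χ, φ, β, v, hzE, hdz, htk, hxP, hδ0, hr0, rt,
    fun k ρ h1 h2 => hrn k ρ h1 h2, dx, hM, hρ0, un, s0, se, ?_⟩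
  refine st0.congr' ?_
  filter_upwards [se] with k hk
  exact hk.symm

end Pool.Agent.H78.UX.IN
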