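import Pool.Agent.H31.IU.Bas
import Pool.Agent.H31.IU.Odd
import Pool.Agent.H31.IN.Stt

/-!
# THEOREM UD: the first state (INI)

Assembly, from the theorem `clx` of chapter B (hypothesis `hclx`, to be replaced by the import).
-/

set_option autoImplicit false

open Filter Topology Metric Set MeasureTheory

namespace Pool.Agent.H78.UX.IN

open Pool.Agent.H56.UD Pool.Agent.H31.IN Pool.Agent.H43.UB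

variable {f : ℂ → ℂ} {U P Cr E : Set ℂ} {δ b0 : ℝ} {η : ℂ → ℂ → ℂ} {ρ : ℝ} {X hh μ : ℂ → ℂ}

theorem ini_of (h : SS f U P Cr δ η ρ) (hX : SX f U P E X hh μ b0) {θ C r0 : ℝ} (hθ : 0 < θ) (hθ1 : θ < 1) (hC : 1 ≤ C)
    (hr0 : 0 < r0) (hU : UG θ C r0 P)
    (hclx : ∀ {𝒱 : Ultrafilter ℕ} {F : ℕ → ℂ → ℂ} {D P' : ℕ → Set ℂ} {wb sb : ℂ}, LS 𝒱 F D P' θ C → Gd 𝒱 F D P' wb sb →
      Ord 𝒱 F D P' θ C sb → Xp 𝒱 F D P' sb)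
    (α β L : ℝ) {ε : ℝ} (hε : 0 < ε) :
    ∃ (z : ℂ) (k : ℕ) (x R : ℂ) (G : ℂ → ℂ), ST f U P P E δ z k x R α β L G ∧ ‖deriv G 0‖ < ε := by
  obtain ⟨𝒰, h𝒰⟩ : ∃ 𝒰 : Ultrafilter ℕ, (𝒰 : Filter ℕ) ≤ atTop :=
    ⟨Ultrafilter.of atTop, Ultrafilter.of_le atTop⟩
  obtain ⟨δ0, z, x, r, σ, M, ρ0, χ, φ, β', v, b⟩ := base h hX hθ hθ1 hC h𝒰
  obtain ⟨c0, w, sb, vs, s1, lam, z', b2⟩ := b2_ex h hX hθ hθ1 hC hr0 hU b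
  obtain ⟨b', hg⟩ := gd2 h b b2
  have hl := ls2 h hX hθ hθ1 hC hr0 hU b b2
  have ho := ord2 h hX hθ hθ1 hC hr0 hU h𝒰 b b2
  obtain ⟨n, G, hG, hd⟩ := stt (fm2 b b2) hl hg (hclx hl hg ho) α β L hε
  exact ⟨_, _, _, _, G, hG, hd⟩

end Pool.Agent.H78.UX.IN
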