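import Pool.Agent.H31.IU.Fra
import Pool.Agent.H43.UB.BRL
import Pool.Agent.H43.UB.NEA
import Pool.Agent.H65.UB.Cnn

/-!
# THEOREM UD for Julia set = sphere, INI: points of `E` over the collar at the scale `(L + 1) r k`

PROOF of `pt2`. `c` from `gd_dist` (H65/UB/Gdf: `ball (ψ u) (c t) ⊆ ψ '' An θ` for `‖u‖ = √θ`, gap discs of radius `t`); `c0 = c / 2`. Fix `L`; `lsx := ls1 ..`; `Ph` the limit set; `0 ∈ Ph` (`P0`). `lsx.gap 1`: gap discs `ψ k` of `P1 k` at `(0, 1)`; `gap_lim`: `ψ0`, `GD θ C Ph 0 1 ψ0`. `bL = ψ0 √θ`: `‖bL‖ < 1`, `ball bL c ⊆ ψ0 '' An θ` is disjoint from `Ph` (`col`). `onto_of` (the complement of `Ph` is preconnected: `Pool.Agent.H65.UB.con` with `V = univ`, `GP θ C Ph` from `ph_gap`; or `cpc` of H43/UB/LFA): `sL ∈ Sc sb`, `Fh sL = bL` (`sb ∈ Sg` by `G1.gd`).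
`gb` at `(bL, sL)` (`fh_gd`) with the radius `3 c / 4`: `G k → g` on `ball bL (3 c / 4)`, `F k (G k u) = u`, `G k u ∈ D k`, `‖G k u‖ ≤ M'`, `Gd u (g u)`; `g` is injective, `g bL = sL`. `g '' ball bL (c / 8)` is open (`uh_open`): contains `closedBall sL (2 e)`, `e > 0`. `b.tk` with `M = ‖sL‖`, `c = e`: for almost all `k` (`σ k → 0`, `σ k ≠ 0`) there is `z'' ∈ E`, `‖z'' - (z + σ k sL)‖ < e ‖σ k‖`, i.e. `s' := (z'' - z) / σ k ∈ ball sL e`.
For almost all `k`: `ball sL e ⊆ G k '' ball bL (c / 8)` (otherwise bad points `s k → s ∈ closedBall sL e`, `s = g u`, `uh_hit`: contradiction). So `s' = G k (u k)`, `u k ∈ ball bL (c / 8)`: `z'' = z + σ k s' ∈ dm f U P δ k`, `(f^[k] z'' - x k) / R k = F k s' = u k`; `deriv (F k) s' * deriv (G k) (u k) = 1`, `deriv (F k) s' = σ k * deriv (f^[k]) z'' / R k`: so `deriv (f^[k]) z'' ≠ 0` and `R k / deriv (f^[k]) z'' / σ k = deriv (G k) (u k)`.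
Put `z' k = z''` for these `k` and `z' k = z` for the others (`b.zE`, `b.dz`). LIMITS: `s1 = lim s'` exists (bounded: `ul_ex`), `s1 ∈ closedBall sL e ⊆ g '' ball bL (c / 8) ⊆ Sc sb` (`sc_of`: the image of the ball under `g` is preconnected, contained in `Sg`, contains `sL`). `u k → u0`, `‖u0 - bL‖ ≤ c / 8`; `lam = deriv g u0 ≠ 0` (`TendstoLocallyUniformlyOn.deriv`, `TendstoLocallyUniformlyOn.tendsto_comp`, `uh_der`).
`off`: `‖u k‖ ≤ 1 + c / 8 ≤ 2` (`c ≤ 1`: `ball bL c ⊆ ball 0 1`... in any case `ball (ψ u) (c t) ⊆ ball 0 t` gives `c ≤ 1`), `ball (u k) (c / 2) ⊆ closedBall bL (3 c / 4)`, compact and disjoint from `Ph`, so from `P1 k` for almost all `k` (`ph_off`).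
-/

set_option autoImplicit false

open Filter Topology Metric Set MeasureTheory

namespace Pool.Agent.H78.UX.IN

open Pool.Agent.H56.UD Pool.Agent.H31.IN Pool.Agent.H43.UB

variable {f : ℂ → ℂ} {U P Cr E : Set ℂ} {δ b0 : ℝ} {η : ℂ → ℂ → ℂ} {ρ : ℝ} {X hh μ : ℂ → ℂ} {𝒰 : Ultrafilter ℕ}
  {θ C r0 δ0 M ρ0 : ℝ} {z : ℂ} {x σ v : ℕ → ℂ} {r : ℕ → ℝ} {χ φ β : ℕ → ℂ → ℂ}

theorem pt2 (h : SS f U P Cr δ η ρ) (hX : SX f U P E X hh μ b0) (hθ : 0 < θ) (hθ1 : θ < 1) (hC : 1 ≤ C) (hr0 : 0 < r0)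
    (hU : UG θ C r0 P) (b : Bs 𝒰 f U P P E δ θ C δ0 z x r σ M ρ0 χ φ β v) :
    ∃ c0 : ℝ, 0 < c0 ∧ ∀ (L : ℕ) (w sb vs : ℂ), G1 𝒰 f U P P δ M z x r σ φ L w sb vs →
      ∃ (s1 lam : ℂ) (z' : ℕ → ℂ), Q2 𝒰 f U P P E δ z x r σ c0 L sb s1 lam z' := by
  obtain ⟨c1, hc1, hcd⟩ := Pool.Agent.H65.UB.gd_dist hθ hθ1 hC
  obtain ⟨c, hcdef⟩ : ∃ c, c = min c1 1 := ⟨_, rfl⟩
  have hc : 0 < c := by
    rw [hcdef]
    exact lt_min hc1 one_pos
  have hcc1 : c ≤ c1 := by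
    rw [hcdef]
    exact min_le_left _ _
  have hc1' : c ≤ 1 := by
    rw [hcdef]
    exact min_le_right _ _
  refine ⟨c / 2, by linarith, fun L w sb vs hg => ?_⟩
  have ls := ls1 h hX hθ hθ1 hC hr0 hU b L
  have hPh0 : (0 : ℂ) ∈ Ph 𝒰 (P1 P x r L) :=
    ph_mem (x := fun _ => 0) (Eventually.of_forall ls.P0) tendsto_const_nhds
  obtain ⟨_, _, ψ0, _, _, _, hψ0, _⟩ := ph_gap ls hPh0 one_pos
  obtain ⟨bL, hbL⟩ : ∃ bL, bL = ψ0 ((√θ : ℝ) : ℂ) := ⟨_, rfl⟩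
  have hb1 : ball bL c ⊆ ψ0 '' Pool.Agent.H65.UB.An θ := by
    rw [hbL]
    refine (ball_subset_ball ?_).trans (hcd _ 0 1 ψ0 one_pos hψ0 _ ?_)
    · rw [mul_one]
      exact hcc1
    · rw [Complex.norm_real, Real.norm_of_nonneg (Real.sqrt_nonneg _)]
  have hoff : Disjoint (ball bL c) (Ph 𝒰 (P1 P x r L)) := by
    rw [Set.disjoint_left]
    intro y hy hy2
    obtain ⟨v, hv, rfl⟩ := hb1 hy
    exact hψ0.col v hv.1 hv.2 hy2
  have hbn : ‖bL‖ < 1 := by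
    obtain ⟨v, hv, hv2⟩ := hb1 (mem_ball_self hc)
    have h1 := hψ0.out ⟨v, mem_ball_zero_iff.2 hv.2, rfl⟩
    rw [hv2] at h1
    exact mem_ball_zero_iff.1 h1
  have hoffK : Disjoint (closedBall bL (3 * c / 4)) (Ph 𝒰 (P1 P x r L)) :=
    hoff.mono_left (closedBall_subset_ball (by linarith))
  have hbPh : bL ∉ Ph 𝒰 (P1 P x r L) := fun hh => (Set.disjoint_left.1 hoff) (mem_ball_self hc) hh
  have hsb : sb ∈ Sg 𝒰 (F1 f z x r σ L) (D1 f U P δ z σ) (P1 P x r L) := ⟨w, hg.gd⟩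
  have hcon : IsPreconnected (Ph 𝒰 (P1 P x r L))ᶜ := by
    have h1 := Pool.Agent.H65.UB.con ls.θ0 ls.θ1 ls.C1 (Φ := Ph 𝒰 (P1 P x r L)) (fun y hy t ht => by
      obtain ⟨-, -, ψ1, -, -, -, h4, -⟩ := ph_gap ls hy ht
      exact ⟨ψ1, h4⟩) ph_closed isOpen_univ isPreconnected_univ
    rwa [← compl_eq_univ_sdiff] at h1
  obtain ⟨sL, hsL, hFs⟩ := onto_of ls hsb hcon hbPh
  have hgd : Gd 𝒰 (F1 f z x r σ L) (D1 f U P δ z σ) (P1 P x r L) bL sL := by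
    rw [← hFs]
    exact fh_gd (sc_sub sb hsL)
  obtain ⟨G, g, hG1, hG2, _, hG4, hG5, hG6, hG7⟩ := gb ls hgd (by linarith : 0 < 3 * c / 4) hoffK
  have hsub8 : ball bL (c / 8) ⊆ ball bL (3 * c / 4) := ball_subset_ball (by linarith)
  have hop : IsOpen (g '' ball bL (c / 8)) := uh_open isOpen_ball hG4 hG5 isOpen_ball hsub8
  have hsLm : g '' ball bL (c / 8) ∈ 𝓝 sL :=
    hop.mem_nhds ⟨bL, mem_ball_self (by linarith), hG6⟩
  obtain ⟨e, he, hesub⟩ := Metric.nhds_basis_closedBall.mem_iff.1 hsLm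
  obtain ⟨ε, hε, htk⟩ := b.tk ‖sL‖ e he
  -- the points of `E`
  have hex : ∀ k, ∃ y : ℂ, ‖σ k‖ < ε → y ∈ E ∧ ‖y - (z + σ k * sL)‖ < e * ‖σ k‖ := by
    intro k
    by_cases h1 : ‖σ k‖ < ε
    · obtain ⟨y, hy1, hy2⟩ := htk (σ k) sL (b.s0 k) h1 le_rfl
      exact ⟨y, fun _ => ⟨hy1, hy2⟩⟩
    · exact ⟨0, fun h2 => absurd h2 h1⟩
  choose y hy using hex
  have hσε : ∀ᶠ k in (𝒰 : Filter ℕ), ‖σ k‖ < ε := by
    have h1 := b.st.norm
    rw [norm_zero] at h1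
    exact h1.eventually_lt_const hε
  obtain ⟨s', hs'⟩ : ∃ s' : ℕ → ℂ, s' = fun k => (y k - z) / σ k := ⟨_, rfl⟩
  have hys : ∀ k, z + σ k * s' k = y k := by
    intro k
    rw [hs']
    show z + σ k * ((y k - z) / σ k) = y k
    rw [mul_div_cancel₀ _ (b.s0 k)]
    ring
  have hsd : ∀ᶠ k in (𝒰 : Filter ℕ), ‖s' k - sL‖ ≤ e := by
    filter_upwards [hσε] with k hk
    have h1 := (hy k hk).2
    have h2 : y k - (z + σ k * sL) = (s' k - sL) * σ k := by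
      rw [← hys k]
      ring
    rw [h2, norm_mul] at h1
    exact (lt_of_mul_lt_mul_right h1 (norm_nonneg _)).le
  obtain ⟨t1, ht1, ht1n⟩ := ul_ex 𝒰 hsd
  obtain ⟨s1, hs1⟩ : ∃ s1, s1 = t1 + sL := ⟨_, rfl⟩
  have hst : Tendsto s' (𝒰 : Filter ℕ) (𝓝 s1) := by
    have h1 := ht1.add_const sL
    rw [← hs1] at h1
    refine h1.congr fun k => ?_
    rw [sub_add_cancel]
  have hs1m : s1 ∈ closedBall sL e := by
    rw [mem_closedBall, dist_eq_norm, hs1, add_sub_cancel_right]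
    exact ht1n
  obtain ⟨u1, hu1, hgu1⟩ := hesub hs1m
  have hu1' := hsub8 hu1
  have hgd1 := hG7 u1 hu1'
  rw [hgu1] at hgd1
  obtain ⟨hn1, hn2⟩ := near ls hgd1 hst
  have hder : deriv g u1 ≠ 0 := uh_der isOpen_ball hG4 hG5 hu1'
  have hnc : ¬ ∀ᶠ u in 𝓝 u1, g u = g u1 := by
    intro h1
    apply hder
    have h2 : g =ᶠ[𝓝 u1] fun _ => g u1 := h1
    rw [h2.deriv_eq, deriv_const]
  have hhit := uh_hit 𝒰 isOpen_ball (hG1.mono fun n hn => hn.1) hG2 hu1' hnc (w := s')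
    (by rw [hgu1]; exact hst) one_pos
  -- the derivatives
  have hkey : ∀ᶠ k in (𝒰 : Filter ℕ), F1 f z x r σ L k (s' k) ∈ ball bL (3 * c / 4) ∧
      y k ∈ dm f U P δ k ∧ deriv (f^[k]) (y k) ≠ 0 ∧
      Rl L r k / deriv (f^[k]) (y k) / σ k = deriv (G k) (F1 f z x r σ L k (s' k)) := by
    filter_upwards [hhit, hG1, hn1] with k h1 h2 h3
    obtain ⟨u, ⟨_, hu⟩, hus⟩ := h1
    obtain ⟨h4, h5⟩ := h2.2 u hu
    rw [hus] at h4 h5
    have hyd : y k ∈ dm f U P δ k := by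
      have h6 : z + σ k * s' k ∈ dm f U P δ k := h3
      rw [hys k] at h6
      exact h6
    have hR := (rl_ne b L k).1
    have hσ := b.s0 k
    have hfd : DifferentiableAt ℂ (f^[k]) (y k) :=
      (dm_diff h k).differentiableAt ((dm_open h k).mem_nhds hyd)
    have hF : HasDerivAt (F1 f z x r σ L k) (deriv (f^[k]) (y k) * σ k / Rl L r k) (s' k) := by
      have h7 : HasDerivAt (fun s : ℂ => z + σ k * s) (σ k) (s' k) := by
        have h8 := ((hasDerivAt_id (s' k)).const_mul (σ k)).const_add z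
        rw [mul_one] at h8
        exact h8
      have h8 : HasDerivAt (f^[k]) (deriv (f^[k]) (y k)) (z + σ k * s' k) := by
        rw [hys k]
        exact hfd.hasDerivAt
      exact ((h8.comp (s' k) h7).sub_const (x k)).div_const (Rl L r k)
    have hGd : HasDerivAt (G k) (deriv (G k) u) u :=
      (h2.1.differentiableAt (isOpen_ball.mem_nhds hu)).hasDerivAt
    have hcomp : HasDerivAt (fun v => F1 f z x r σ L k (G k v)) (deriv (f^[k]) (y k) * σ k / Rl L r k * deriv (G k) u) u := by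
      rw [← hus] at hF
      exact hF.comp u hGd
    have hid : (fun v => F1 f z x r σ L k (G k v)) =ᶠ[𝓝 u] fun v => v := by
      filter_upwards [isOpen_ball.mem_nhds hu] with v hv
      exact (h2.2 v hv).2
    have h9 : deriv (f^[k]) (y k) * σ k / Rl L r k * deriv (G k) u = 1 := by
      have h10 := hcomp.deriv
      rw [hid.deriv_eq, deriv_id''] at h10
      exact h10.symm
    have hne : deriv (f^[k]) (y k) ≠ 0 := by
      intro h10
      rw [h10] at h9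
      simp at h9
    rw [h5]
    refine ⟨hu, hyd, hne, ?_⟩
    field_simp at h9 ⊢
    exact h9.symm
  obtain ⟨z', hz'⟩ : ∃ z' : ℕ → ℂ, ∀ k, (y k ∈ E ∧ deriv (f^[k]) (y k) ≠ 0 → z' k = y k) ∧
      (¬ (y k ∈ E ∧ deriv (f^[k]) (y k) ≠ 0) → z' k = z) := by
    have h1 : ∀ k, ∃ v : ℂ, (y k ∈ E ∧ deriv (f^[k]) (y k) ≠ 0 → v = y k) ∧
        (¬ (y k ∈ E ∧ deriv (f^[k]) (y k) ≠ 0) → v = z) := by
      intro k
      by_cases h2 : y k ∈ E ∧ deriv (f^[k]) (y k) ≠ 0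
      · exact ⟨y k, fun _ => rfl, fun h3 => absurd h2 h3⟩
      · exact ⟨z, fun h3 => absurd h3 h2, fun _ => rfl⟩
    choose z' hz' using h1
    exact ⟨z', hz'⟩
  have hzy : ∀ᶠ k in (𝒰 : Filter ℕ), z' k = y k := by
    filter_upwards [hkey, hσε] with k h1 h2
    exact (hz' k).1 ⟨(hy k h2).1, h1.2.2.1⟩
  refine ⟨s1, deriv g u1, z', ?_⟩
  refine
    { zE := fun k => by
        by_cases h2 : y k ∈ E ∧ deriv (f^[k]) (y k) ≠ 0
        · rw [(hz' k).1 h2]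
          exact h2.1
        · rw [(hz' k).2 h2]
          exact b.zE
      dz := fun k => by
        by_cases h2 : y k ∈ E ∧ deriv (f^[k]) (y k) ≠ 0
        · rw [(hz' k).1 h2]
          exact h2.2
        · rw [(hz' k).2 h2]
          exact b.dz k
      l0 := hder
      sm := ?_
      st := ?_
      lt := ?_
      off := ?_ }
  · have h1 : IsPreconnected (g '' ball bL (3 * c / 4)) :=
      (convex_ball bL _).isPreconnected.image _ hG4.continuousOn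
    refine sc_of h1 ?_ ⟨sL, ⟨bL, mem_ball_self (by linarith), hG6⟩, hsL⟩ ⟨u1, hu1', hgu1⟩
    rintro _ ⟨u, hu, rfl⟩
    exact ⟨u, hG7 u hu⟩
  · refine hst.congr' ?_
    filter_upwards [hzy] with k hk
    rw [hk, hs']
  · have h1 := hG2.deriv (hG1.mono fun n hn => hn.1) isOpen_ball
    have h2 : ContinuousWithinAt (deriv g) (ball bL (3 * c / 4)) u1 :=
      (hG4.deriv isOpen_ball).continuousOn u1 hu1'
    have h3 : Tendsto (fun k => F1 f z x r σ L k (s' k)) (𝒰 : Filter ℕ) (𝓝[ball bL (3 * c / 4)] u1) := by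
      refine tendsto_nhdsWithin_iff.2 ⟨hn2, ?_⟩
      filter_upwards [hkey] with k hk
      exact hk.1
    have h4 := h1.tendsto_comp h2 hu1' h3
    refine h4.congr' ?_
    filter_upwards [hkey, hzy] with k hk hk2
    rw [hk2, hk.2.2.2]
    rfl
  · have h1 : ∀ᶠ k in (𝒰 : Filter ℕ), F1 f z x r σ L k (s' k) ∈ ball bL (c / 8) :=
      hn2.eventually (isOpen_ball.mem_nhds hu1)
    filter_upwards [h1, hkey, hzy, ph_off (isCompact_closedBall bL (3 * c / 4)) hoffK] with k h2 h3 h4 h5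
    have h6 : (f^[k] (y k) - x k) / Rl L r k = F1 f z x r σ L k (s' k) := by
      show _ = (f^[k] (z + σ k * s' k) - x k) / Rl L r k
      rw [hys k]
    rw [h4, h6]
    rw [mem_ball, dist_eq_norm] at h2
    refine ⟨h3.2.1, ?_, fun u hu hu2 => ?_⟩
    · have h7 : ‖F1 f z x r σ L k (s' k)‖ ≤ ‖F1 f z x r σ L k (s' k) - bL‖ + ‖bL‖ := by
        have h8 := norm_add_le (F1 f z x r σ L k (s' k) - bL) bL
        rwa [sub_add_cancel] at h8
      linarith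
    · refine Set.disjoint_left.1 h5 ?_ hu2
      rw [mem_ball] at hu
      rw [mem_closedBall]
      have h7 := dist_triangle u (F1 f z x r σ L k (s' k)) bL
      rw [dist_eq_norm (F1 f z x r σ L k (s' k)) bL] at h7
      linarith

/-- second base data exist -/
theorem b2_ex (h : SS f U P Cr δ η ρ) (hX : SX f U P E X hh μ b0) (hθ : 0 < θ) (hθ1 : θ < 1) (hC : 1 ≤ C) (hr0 : 0 < r0)
    (hU : UG θ C r0 P) (b : Bs 𝒰 f U P P E δ θ C δ0 z x r σ M ρ0 χ φ β v) :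
    ∃ (c0 : ℝ) (w sb vs s1 lam : ℕ → ℂ) (z' : ℕ → ℕ → ℂ), B2 𝒰 f U P P E δ M z x r σ φ c0 w sb vs s1 lam z' := by
  obtain ⟨c0, hc0, hq⟩ := pt2 h hX hθ hθ1 hC hr0 hU b
  choose w sb vs hg using g1_ex h hX hθ hθ1 hC hr0 hU b
  choose s1 lam z' hq' using fun L => hq L (w L) (sb L) (vs L) (hg L)
  exact ⟨c0, w, sb, vs, s1, lam, z', hc0, hg, hq'⟩

end Pool.Agent.H78.UX.IN
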