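import Pool.Agent.H31.IN.Puc
import Pool.Agent.H78.UX.DA
import Pool.Agent.H65.UB.Gdf

/-!
# THEOREM UD for Julia set = sphere, INI: simple scales

`sm2_ex`: `z ∈ J ⊆ dm f U P δ k` (`J_dm`, open: `dm_open`), `f^[k]` is holomorphic near `z` with nonzero derivative: local inverse `G` (`HasStrictDerivAt.to_localInverse` / `localInverse`), with values in `dm f U P δ k` on a small ball, differentiable there.
`scl`: the set `S` of the `r ∈ (0, δ0]` with `Sm1` or `Sm2` is not empty (`sm2_ex`, `sm2_mono`) and bounded by `δ0`; `sSup S > 0`; `r ∈ S` with `sSup S / 2 < r` (`exists_lt_of_lt_csSup`). If `ρ` is simple, `2 r ≤ ρ ≤ δ0`, then `ρ ≤ sSup S < 2 r`.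
`sm_dx`: let `D = ‖f^[k] z - x‖` be the distance of `f^[k] z` to `P`. If `D = 0` nothing is to prove. Otherwise let `t = min D δ0 ≤ δ`: `ball (f^[k] z) t` is disjoint from `P` and contained in `thickening δ J` (`f^[k] z ∈ J` by `J_it`): `br_ball` gives `Sm2` for `t`, so `t < 2 r`, so `D < 2 r` as `2 r ≤ δ0`.
`sm_un`: CASE `Sm1`: `χ = ψ`; `bt_bd` with `ρ' = θ`: `‖v‖ ≤ ρ0`. `cb`: `out`, `M ≥ 1`. `cl`: `u0` with `‖u0‖ < θ`, `ψ u0 = x` (`gd_mid`), `r / C ≤ 2 ‖deriv ψ u0‖` (`dist_upper` or as in `gd_dist` of H65/UB/Gdf: the inverse function on `ball x (r / C)` has values in the unit disc: its derivative is at most `C / r` by the Schwarz lemma / Cauchy), `chain` (H65/UB/Gdf) from `u0` to `0` with `δ = 1 - θ`: `‖deriv ψ u0‖ ≤ KK ^ N ‖deriv ψ 0‖`. So `M = max 3 (2 C KK ^ N)`. CASE `Sm2`: `χ u = f^[k] z + r u`, `φ u = G (f^[k] z + r u)`, `β = id`, `v = 0`; `‖χ u - x‖ ≤ r + 2 r`; `deriv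 χ 0 = r`; `φ` is injective since `f^[k] (φ u) = χ u`. `0 ≤ ρ0`.
-/

set_option autoImplicit false

open Filter Topology Metric Set MeasureTheory

namespace Pool.Agent.H78.UX.IN

open Pool.Agent.H56.UD Pool.Agent.H31.IN

variable {f : ℂ → ℂ} {U P Cr E : Set ℂ} {δ b0 : ℝ} {η : ℂ → ℂ → ℂ} {ρ : ℝ} {X hh μ : ℂ → ℂ}

theorem sm2_mono {z : ℂ} {k : ℕ} {r r' : ℝ} (h : Sm2 f U P δ z k r) (hr : 0 < r') (hr' : r' ≤ r) : Sm2 f U P δ z k r' := by
  obtain ⟨G, h1, h2, h3⟩ := h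
  have hs : ball (f^[k] z) r' ⊆ ball (f^[k] z) r := ball_subset_ball hr'
  exact ⟨G, h1.mono hs, h2, fun u hu => h3 u (hs hu)⟩

theorem sm2_ex (h : SS f U P Cr δ η ρ) {z : ℂ} {k : ℕ} (hzd : z ∈ dm f U P δ k) (hd : deriv (f^[k]) z ≠ 0) :
    ∃ r : ℝ, 0 < r ∧ Sm2 f U P δ z k r := by
  have hAn : AnalyticAt ℂ (f^[k]) z :=
    (dm_diff h k).analyticAt ((dm_open h k).mem_nhds hzd)
  have hcd : ContDiffAt ℂ 1 (f^[k]) z := hAn.contDiffAt
  have hsd : HasStrictDerivAt (f^[k]) (deriv (f^[k]) z) z := hAn.hasStrictDerivAt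
  have hfd : HasFDerivAt (f^[k])
      ((ContinuousLinearEquiv.unitsEquivAut ℂ (Units.mk0 (deriv (f^[k]) z) hd) : ℂ ≃L[ℂ] ℂ) : ℂ →L[ℂ] ℂ) z :=
    (hsd.hasStrictFDerivAt_equiv hd).hasFDerivAt
  have hs := hcd.hasStrictFDerivAt' hfd one_ne_zero
  obtain ⟨G, hG⟩ : ∃ G : ℂ → ℂ, G = hcd.localInverse hfd one_ne_zero := ⟨_, rfl⟩
  have hG1 : ContDiffAt ℂ 1 G (f^[k] z) := by
    rw [hG]
    exact hcd.to_localInverse hfd one_ne_zero
  have hG0 : G (f^[k] z) = z := by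
    rw [hG]
    exact hcd.localInverse_apply_image hfd one_ne_zero
  have hG2 : ∀ᶠ u in 𝓝 (f^[k] z), f^[k] (G u) = u := by
    rw [hG]
    exact hs.eventually_right_inverse
  have hG3 : ∀ᶠ u in 𝓝 (f^[k] z), G u ∈ dm f U P δ k := by
    have hc : Tendsto G (𝓝 (f^[k] z)) (𝓝 (G (f^[k] z))) := hG1.continuousAt
    rw [hG0] at hc
    exact hc.eventually ((dm_open h k).mem_nhds hzd)
  have hG4 : ∀ᶠ u in 𝓝 (f^[k] z), DifferentiableAt ℂ G u := by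
    filter_upwards [hG1.eventually (by simp)] with u hu
    exact hu.differentiableAt one_ne_zero
  obtain ⟨r, hr, hb⟩ := Metric.eventually_nhds_iff_ball.1 (hG2.and (hG3.and hG4))
  exact ⟨r, hr, G, fun u hu => (hb u hu).2.2.differentiableWithinAt, hG0,
    fun u hu => ⟨(hb u hu).2.1, (hb u hu).1⟩⟩

theorem scl (h : SS f U P Cr δ η ρ) (θ C : ℝ) {δ0 : ℝ} (hδ0 : 0 < δ0) {z : ℂ} {k : ℕ} (hz : z ∈ dm f U P δ k)
    (hd : deriv (f^[k]) z ≠ 0) (x : ℂ) : ∃ r : ℝ, 0 < r ∧ r ≤ δ0 ∧ (Sm1 f U P P δ θ C z k x r ∨ Sm2 f U P δ z k r) ∧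
      ∀ t : ℝ, 2 * r ≤ t → t ≤ δ0 → ¬ Sm1 f U P P δ θ C z k x t ∧ ¬ Sm2 f U P δ z k t := by
  obtain ⟨S, hS⟩ : ∃ S : Set ℝ, S = {t | 0 < t ∧ t ≤ δ0 ∧ (Sm1 f U P P δ θ C z k x t ∨ Sm2 f U P δ z k t)} :=
    ⟨_, rfl⟩
  have hmem : ∀ t, t ∈ S ↔ 0 < t ∧ t ≤ δ0 ∧ (Sm1 f U P P δ θ C z k x t ∨ Sm2 f U P δ z k t) := by
    intro t
    rw [hS]
    rfl
  have hne : S.Nonempty := by
    obtain ⟨r0, hr0, hs⟩ := sm2_ex h hz hd
    refine ⟨min r0 δ0, (hmem _).2 ⟨lt_min hr0 hδ0, min_le_right _ _, Or.inr ?_⟩⟩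
    exact sm2_mono hs (lt_min hr0 hδ0) (min_le_left _ _)
  have hbd : BddAbove S := ⟨δ0, fun t ht => ((hmem t).1 ht).2.1⟩
  have hpos : 0 < sSup S := by
    obtain ⟨t, ht⟩ := hne
    exact lt_of_lt_of_le ((hmem t).1 ht).1 (le_csSup hbd ht)
  obtain ⟨r, hr, hr2⟩ := exists_lt_of_lt_csSup hne (half_lt_self hpos)
  obtain ⟨h1, h2, h3⟩ := (hmem r).1 hr
  refine ⟨r, h1, h2, h3, fun t ht ht2 => ?_⟩
  have h4 : ∀ hh : Sm1 f U P P δ θ C z k x t ∨ Sm2 f U P δ z k t, False := by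
    intro hh
    have h5 : t ≤ sSup S := le_csSup hbd ((hmem t).2 ⟨by linarith, ht2, hh⟩)
    linarith
  exact ⟨fun hh => h4 (Or.inl hh), fun hh => h4 (Or.inr hh)⟩

theorem sm_dx (h : SS f U P Cr δ η ρ) {δ0 : ℝ} (hδ0 : 0 < δ0) (hδ : δ0 ≤ δ / 2) {z : ℂ} {k : ℕ} (hz : z ∈ oU f U k)
    (hz2 : f^[k] z ∈ thickening (δ / 2) P) {x : ℂ}
    (hx : ∀ y ∈ P, ‖f^[k] z - x‖ ≤ ‖f^[k] z - y‖) {r : ℝ} (hr : 0 < r) (hr2 : 2 * r ≤ δ0)
    (hn : ∀ t : ℝ, 2 * r ≤ t → t ≤ δ0 → ¬ Sm2 f U P δ z k t) : ‖f^[k] z - x‖ < 2 * r := by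
  by_contra hD
  push Not at hD
  have ht0 : 0 < min ‖f^[k] z - x‖ δ0 := lt_min (by linarith) hδ0
  refine hn (min ‖f^[k] z - x‖ δ0) (le_min hD hr2) (min_le_right _ _) ?_
  have hJ : ball (f^[k] z) (min ‖f^[k] z - x‖ δ0) ⊆ thickening δ P := by
    intro u hu
    obtain ⟨p, hp, hpd⟩ := mem_thickening_iff.1 hz2
    rw [mem_thickening_iff]
    refine ⟨p, hp, ?_⟩
    rw [mem_ball] at hu
    have h1 := min_le_right ‖f^[k] z - x‖ δ0
    have h2 := dist_triangle u (f^[k] z) p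
    linarith
  have hP : ∀ u ∈ ball (f^[k] z) (min ‖f^[k] z - x‖ δ0), u ∉ P := by
    intro u hu huP
    rw [mem_ball_iff_norm'] at hu
    exact absurd (hx u huP) (not_le.2 (hu.trans_le (min_le_left _ _)))
  obtain ⟨G, h1, h2, h3⟩ := br_ball h hJ hP (ou_dm hz (thickening_mono (by have := h.hδ; linarith) P hz2)) (mem_ball_self ht0)
  exact ⟨G, h1, h2, h3⟩

theorem sm_un {θ C : ℝ} (hθ : 0 < θ) (hθ1 : θ < 1) (hC : 1 ≤ C) : ∃ M ρ0 : ℝ, 1 ≤ M ∧ ρ0 < 1 ∧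
    ∀ {f : ℂ → ℂ} {U P : Set ℂ} {δ : ℝ} {z : ℂ} {k : ℕ} {x : ℂ} {r : ℝ}, 0 < r → ‖f^[k] z - x‖ < 2 * r →
      (Sm1 f U P P δ θ C z k x r ∨ Sm2 f U P δ z k r) →
      ∃ (χ φ β : ℂ → ℂ) (v : ℂ), Un f U P δ θ z k x r M ρ0 χ φ β v := by
  obtain ⟨ρ0, hρ0, hρ1, hbd⟩ := bt_bd hθ hθ1 hθ.le hθ1
  obtain ⟨N, hN⟩ := exists_nat_ge (2 / (1 - θ))
  have hKN : 0 < Pool.Agent.H80.AJ.KK ^ N := pow_pos Pool.Agent.H80.AJ.KK_pos N
  obtain ⟨M, hM⟩ : ∃ M : ℝ, M = max 3 (2 * C * Pool.Agent.H80.AJ.KK ^ N) := ⟨_, rfl⟩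
  have hM3 : 3 ≤ M := hM ▸ le_max_left _ _
  have hMC : 2 * C * Pool.Agent.H80.AJ.KK ^ N ≤ M := hM ▸ le_max_right _ _
  refine ⟨M, ρ0, by linarith, hρ1, ?_⟩
  intro f U P δ z k x r hr hzx hs
  rcases hs with ⟨ψ, φ, β, v, hgd, hpu, hv, hvz, hβ⟩ | ⟨G, hGd, hGz, hGv⟩
  · refine ⟨ψ, φ, β, v, hgd.diff, hgd.inj, ?_, ?_, hpu, hbd hpu v hv hβ.le, hvz⟩
    · intro u hu
      have h1 := mem_ball_iff_norm.1 (hgd.out ⟨u, hu, rfl⟩)
      nlinarith
    · obtain ⟨u0, hu0, hux⟩ := Pool.Agent.H65.UB.gd_mid hgd hC hr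
      have hu01 : u0 ∈ ball (0 : ℂ) 1 := mem_ball_zero_iff.2 (hu0.trans hθ1)
      have h1 : r / C ≤ 2 * 1 * ‖deriv ψ u0‖ := by
        refine Pool.Agent.H80.AJ.dist_upper one_pos hgd.diff hgd.inj hu01 (div_pos hr (by linarith)) ?_
        rw [hux]
        exact hgd.inn.trans (image_mono (ball_subset_ball hθ1.le))
      have h2 : ‖deriv ψ u0‖ ≤ Pool.Agent.H80.AJ.KK ^ N * ‖deriv ψ 0‖ := by
        refine Pool.Agent.H65.UB.chain (δ := 1 - θ) (by linarith) N ?_ ?_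
        · rw [sub_zero]
          have h4 : 2 ≤ N * (1 - θ) := by
            rwa [div_le_iff₀ (by linarith)] at hN
          linarith
        · intro y hy
          have h3 : y ∈ closedBall (0 : ℂ) θ :=
            (convex_closedBall (0 : ℂ) θ).segment_subset
              (mem_closedBall_zero_iff.2 hu0.le) (mem_closedBall_self hθ.le) hy
          have h4 : ball y (1 - θ) ⊆ ball (0 : ℂ) 1 := by
            intro q hq
            rw [mem_ball_iff_norm] at hq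
            rw [mem_closedBall_zero_iff] at h3
            rw [mem_ball_zero_iff]
            have h5 := norm_sub_norm_le q y
            linarith
          exact ⟨hgd.diff.mono h4, hgd.inj.mono h4⟩
      have hC0 : 0 < C := by linarith
      rw [div_le_iff₀ hC0] at h1
      calc r ≤ 2 * 1 * ‖deriv ψ u0‖ * C := h1
        _ ≤ 2 * 1 * (Pool.Agent.H80.AJ.KK ^ N * ‖deriv ψ 0‖) * C := by gcongr
        _ = 2 * C * Pool.Agent.H80.AJ.KK ^ N * ‖deriv ψ 0‖ := by ring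
        _ ≤ M * ‖deriv ψ 0‖ := by gcongr
  · have hrc : ((r : ℝ) : ℂ) ≠ 0 := by exact_mod_cast hr.ne'
    have hmaps : ∀ u ∈ ball (0 : ℂ) 1, f^[k] z + r * u ∈ ball (f^[k] z) r := by
      intro u hu
      rw [mem_ball_zero_iff] at hu
      rw [mem_ball_iff_norm, add_sub_cancel_left, norm_mul, Complex.norm_real, Real.norm_of_nonneg hr.le]
      nlinarith [norm_nonneg u]
    have hχd : Differentiable ℂ (fun u : ℂ => f^[k] z + r * u) := by
      fun_prop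
    refine ⟨fun u => f^[k] z + r * u, fun u => G (f^[k] z + r * u), fun v => v, 0, ?_, ?_, ?_, ?_, ?_, ?_, ?_⟩
    · exact hχd.differentiableOn
    · intro a _ b _ hab
      exact mul_left_cancel₀ hrc (add_left_cancel hab)
    · intro u hu
      rw [mem_ball_zero_iff] at hu
      have h1 : f^[k] z + r * u - x = (f^[k] z - x) + r * u := by ring
      rw [h1]
      refine (norm_add_le _ _).trans ?_
      rw [norm_mul, Complex.norm_real, Real.norm_of_nonneg hr.le]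
      nlinarith [norm_nonneg u]
    · have h1 : deriv (fun u : ℂ => f^[k] z + r * u) 0 = r := by
        have h2 : HasDerivAt (fun u : ℂ => f^[k] z + r * u) (r * 1) 0 :=
          ((hasDerivAt_id (0 : ℂ)).const_mul (r : ℂ)).const_add _
        rw [h2.deriv, mul_one]
      rw [h1, Complex.norm_real, Real.norm_of_nonneg hr.le]
      nlinarith
    · refine ⟨?_, ?_, ?_, Or.inl fun _ => rfl⟩
      · exact hGd.comp hχd.differentiableOn hmaps
      · intro a ha b hb hab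
        have h1 := (hGv _ (hmaps a ha)).2
        have h2 := (hGv _ (hmaps b hb)).2
        have hab' : G (f^[k] z + r * a) = G (f^[k] z + r * b) := hab
        rw [hab', h2] at h1
        exact mul_left_cancel₀ hrc (add_left_cancel h1.symm)
      · exact fun v hv => hGv _ (hmaps v hv)
    · rw [norm_zero]
      exact hρ0.le
    · show G (f^[k] z + r * 0) = z
      rw [mul_zero, add_zero, hGz]

end Pool.Agent.H78.UX.IN
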