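import Pool.Agent.H78.UX.DA
import Pool.Agent.H80.AJ.Cover
import Pool.Agent.H65.UB.Gdf

/-!
# THEOREM UD for Julia set = sphere, INI: pull backs over discs of a fixed small size shrink (leo and Koebe)
-/

set_option autoImplicit false

open Filter Topology Metric Set MeasureTheory

namespace Pool.Agent.H78.UX.IN

open Pool.Agent.H56.UD

variable {f : ℂ → ℂ} {U P Cr E : Set ℂ} {δ b0 : ℝ} {η : ℂ → ℂ → ℂ} {ρ : ℝ} {X hh μ : ℂ → ℂ}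

theorem ou_mono {m n : ℕ} (h : m ≤ n) : oU f U n ⊆ oU f U m := fun _ hz j hj => hz j (hj.trans_le h)

theorem dm_ou {k : ℕ} : dm f U P δ k ⊆ oU f U k := fun _ hz => hz.1

theorem ou_zero : oU f U 0 = univ := by
  ext z
  exact ⟨fun _ => trivial, fun _ j hj => absurd hj (Nat.not_lt_zero j)⟩

theorem ou_open (h : SS f U P Cr δ η ρ) (k : ℕ) : IsOpen (oU f U k) := by
  induction k with
  | zero =>
    rw [ou_zero]
    exact isOpen_univ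
  | succ k ih =>
    have he : oU f U (k + 1) = U ∩ f ⁻¹' (oU f U k) := by
      ext z
      exact ou_succ k z
    rw [he]
    exact h.fd.continuousOn.isOpen_inter_preimage h.Uo ih

theorem ou_diff (h : SS f U P Cr δ η ρ) (k : ℕ) : DifferentiableOn ℂ (f^[k]) (oU f U k) := by
  induction k with
  | zero => simpa using differentiableOn_id
  | succ k ih =>
    rw [Function.iterate_succ]
    exact ih.comp (h.fd.mono fun z hz => ((ou_succ k z).1 hz).1) fun z hz => ((ou_succ k z).1 hz).2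

/-- uniform form -/
theorem shk0 (h : SS f U P Cr δ η ρ) (δ1 B : ℝ) {ρ0 : ℝ} (hρ : ρ0 < 1) {ε : ℝ} (hε : 0 < ε) :
    ∃ N : ℕ, ∀ k ≥ N, ∀ (φ : ℂ → ℂ) (y v : ℂ), DifferentiableOn ℂ φ (ball 0 1) → InjOn φ (ball 0 1) →
      (∀ u ∈ ball (0 : ℂ) 1, ‖f^[k] (φ u) - y‖ ≤ δ1) → ‖v‖ ≤ ρ0 → ‖φ v‖ ≤ B → ‖deriv φ 0‖ < ε := by
  obtain ⟨ρm, hρmd⟩ : ∃ ρm : ℝ, ρm = max ρ0 0 := ⟨_, rfl⟩
  have hρm1 : ρm < 1 := hρmd ▸ max_lt hρ one_pos
  have hρm0 : 0 ≤ ρm := hρmd ▸ le_max_right _ _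
  have hm0 : ρ0 ≤ ρm := hρmd ▸ le_max_left _ _
  obtain ⟨N1, hN1⟩ := exists_nat_ge (2 / (1 - ρm))
  have hKN : 0 < Pool.Agent.H80.AJ.KK ^ N1 := pow_pos Pool.Agent.H80.AJ.KK_pos N1
  have h1m : 0 < 1 - ρm := by linarith
  obtain ⟨t, ht⟩ : ∃ t : ℝ, t = (1 - ρm) * (ε / Pool.Agent.H80.AJ.KK ^ N1) / 16 := ⟨_, rfl⟩
  have ht0 : 0 < t := by
    rw [ht]
    positivity
  obtain ⟨S, -, hSf, hS⟩ := (isCompact_closedBall (0 : ℂ) B).finite_cover_balls (half_pos ht0)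
  have hleo : ∀ p : ℂ, ∃ N : ℕ, ∀ n ≥ N, ball 0 (|δ1| + 2) ⊆ f^[n] '' (ball p (t / 2) ∩ oU f U n) := fun p =>
    h.leo (ball p (t / 2)) isOpen_ball ⟨p, mem_ball_self (half_pos ht0)⟩ _
  choose Np hNp using hleo
  obtain ⟨N, hN⟩ := (hSf.image Np).bddAbove
  refine ⟨N, fun k hk φ y v hd hi hb hv hvB => ?_⟩
  by_contra hlt
  push Not at hlt
  have hvm : ‖v‖ ≤ ρm := hv.trans hm0
  have hch : ‖deriv φ 0‖ ≤ Pool.Agent.H80.AJ.KK ^ N1 * ‖deriv φ v‖ := by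
    refine Pool.Agent.H65.UB.chain (δ := 1 - ρm) h1m N1 ?_ ?_
    · rw [zero_sub, norm_neg]
      have h4 : 2 ≤ N1 * (1 - ρm) := by
        rwa [div_le_iff₀ h1m] at hN1
      linarith
    · intro q hq
      have h6 : q ∈ closedBall (0 : ℂ) ρm :=
        (convex_closedBall (0 : ℂ) ρm).segment_subset (mem_closedBall_self hρm0) (mem_closedBall_zero_iff.2 hvm) hq
      have h7 : ball q (1 - ρm) ⊆ ball (0 : ℂ) 1 := by
        intro w hw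
        rw [mem_ball_iff_norm] at hw
        rw [mem_closedBall_zero_iff] at h6
        rw [mem_ball_zero_iff]
        have h8 := norm_sub_norm_le w q
        linarith
      exact ⟨hd.mono h7, hi.mono h7⟩
  have hsub : ball v (1 - ρm) ⊆ ball (0 : ℂ) 1 := by
    intro w hw
    rw [mem_ball_iff_norm] at hw
    rw [mem_ball_zero_iff]
    have h8 := norm_sub_norm_le w v
    linarith
  have hcov := Pool.Agent.H80.AJ.univ_cover h1m (hd.mono hsub) (hi.mono hsub)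
  have htl : t ≤ (1 - ρm) * ‖deriv φ v‖ / 16 := by
    rw [ht]
    have h9 : ε / Pool.Agent.H80.AJ.KK ^ N1 ≤ ‖deriv φ v‖ := by
      rw [div_le_iff₀ hKN]
      linarith
    gcongr
  obtain ⟨p, hpS, hp⟩ := mem_iUnion₂.1 (hS (mem_closedBall_zero_iff.2 hvB))
  have hpk : Np p ≤ k := (hN ⟨p, hpS, rfl⟩).trans hk
  have key : ∀ a ∈ ball (0 : ℂ) (|δ1| + 2), ‖a - y‖ ≤ δ1 := by
    intro a ha
    obtain ⟨w, ⟨hw1, -⟩, rfl⟩ := hNp p k hpk ha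
    have hw2 : w ∈ ball (φ v) ((1 - ρm) * ‖deriv φ v‖ / 16) := by
      rw [mem_ball] at hw1 hp ⊢
      rw [dist_comm] at hp
      have := dist_triangle w p (φ v)
      linarith
    obtain ⟨u, hu, rfl⟩ := hcov hw2
    exact hb u (hsub hu)
  have habs := le_abs_self δ1
  have hab0 := abs_nonneg δ1
  have hR : ‖(((|δ1| + 1 : ℝ)) : ℂ)‖ = |δ1| + 1 := by
    rw [Complex.norm_real, Real.norm_of_nonneg (by positivity)]
  have k1 := key (((|δ1| + 1 : ℝ)) : ℂ) (mem_ball_zero_iff.2 (by rw [hR]; linarith))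
  have k2 := key (-(((|δ1| + 1 : ℝ)) : ℂ)) (mem_ball_zero_iff.2 (by rw [norm_neg, hR]; linarith))
  have h8 : 2 * (|δ1| + 1) ≤ δ1 + δ1 := by
    calc 2 * (|δ1| + 1) = ‖(((|δ1| + 1 : ℝ)) : ℂ) - y - (-(((|δ1| + 1 : ℝ)) : ℂ) - y)‖ := by
          have e1 : (((|δ1| + 1 : ℝ)) : ℂ) - y - (-(((|δ1| + 1 : ℝ)) : ℂ) - y) = 2 * (((|δ1| + 1 : ℝ)) : ℂ) := by ring
          rw [e1, norm_mul, hR, Complex.norm_ofNat]
      _ ≤ _ := (norm_sub_le _ _).trans (add_le_add k1 k2)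
  linarith

theorem shk (h : SS f U P Cr δ η ρ) {𝒰 : Ultrafilter ℕ} (h𝒰 : (𝒰 : Filter ℕ) ≤ atTop) {δ1 ρ0 B : ℝ} (hρ : ρ0 < 1)
    {φ : ℕ → ℂ → ℂ} {y v : ℕ → ℂ}
    (hφ : ∀ᶠ k in (𝒰 : Filter ℕ), DifferentiableOn ℂ (φ k) (ball 0 1) ∧ InjOn (φ k) (ball 0 1) ∧
      ∀ u ∈ ball (0 : ℂ) 1, ‖f^[k] (φ k u) - y k‖ ≤ δ1)
    (hv : ∀ᶠ k in (𝒰 : Filter ℕ), ‖v k‖ ≤ ρ0 ∧ ‖φ k (v k)‖ ≤ B) :
    Tendsto (fun k => deriv (φ k) 0) (𝒰 : Filter ℕ) (𝓝 0) := by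
  rw [Metric.tendsto_nhds]
  intro ε hε
  obtain ⟨N, hN⟩ := shk0 h δ1 B hρ hε
  have hge : ∀ᶠ k in (𝒰 : Filter ℕ), N ≤ k := h𝒰 (eventually_ge_atTop N)
  filter_upwards [hφ, hv, hge] with k h1 h2 h3
  rw [dist_zero_right]
  exact hN k h3 (φ k) (y k) (v k) h1.1 h1.2.1 h1.2.2 h2.1 h2.2

end Pool.Agent.H78.UX.IN
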