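import Pool.Agent.H31.IU.Shr
import Pool.Agent.H43.UB.UH

/-!
# THEOREM UD for Julia set = sphere, INI: no cones over arbitrary discs, typical orbits tend to `P`

`ncx`: from `SX.nc` and `SS.inf`. `no_br`: for large `k` no branch of `f^-k` over a disc of fixed radius at `f^k z`, `z ∈ E`
(bounded part of the plane): `shk0` and `nc`. `to_P`: the orbits of the points of `E` tend to `P`, uniformly.
-/

set_option autoImplicit false

open Filter Topology Metric Set MeasureTheory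

namespace Pool.Agent.H78.UX.IN

open Pool.Agent.H56.UD

variable {f : ℂ → ℂ} {U P Cr E : Set ℂ} {δ b0 : ℝ} {η : ℂ → ℂ → ℂ} {ρ : ℝ} {X hh μ : ℂ → ℂ}

theorem ncx (h : SS f U P Cr δ η ρ) (hX : SX f U P E X hh μ b0) {δ' M : ℝ} (hδ : 0 < δ') :
    ∃ ε : ℝ, 0 < ε ∧ ∀ z ∈ E, ∀ (k : ℕ) (y : ℂ) (σ : ℝ) (G : ℂ → ℂ), ball y δ' ⊆ thickening δ P → 0 < σ →
      DifferentiableOn ℂ G (ball y δ') →
      (∀ u ∈ ball y δ', G u ∈ dm f U P δ k ∧ f^[k] (G u) = u ∧ ‖G u - z‖ ≤ M * σ) → σ ≤ M * ‖deriv G y‖ → ε ≤ σ := by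
  obtain ⟨A, B, hA, -⟩ := h.inf
  obtain ⟨ε, hε, hn⟩ := hX.nc δ' M A hδ
  refine ⟨ε, hε, fun z hz k y σ G hy hσ hG h3 h4 => hn z hz k y σ G ?_ hσ hG ?_ h4⟩
  · exact (mem_ball_zero_iff.1 (hA (hy (mem_ball_self hδ)))).le
  · exact fun u hu => ⟨(h3 u hu).1.1, (h3 u hu).2⟩

/-- no branches over discs of a fixed radius -/
theorem no_br (h : SS f U P Cr δ η ρ) (hX : SX f U P E X hh μ b0) {ε' : ℝ} (hε' : 0 < ε') (B : ℝ) :
    ∃ N : ℕ, ∀ k ≥ N, ∀ z ∈ E, ‖f^[k] z‖ ≤ B → ∀ G : ℂ → ℂ, DifferentiableOn ℂ G (ball (f^[k] z) ε') →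
      G (f^[k] z) = z → (∀ u ∈ ball (f^[k] z) ε', G u ∈ oU f U k ∧ f^[k] (G u) = u) → False := by
  obtain ⟨B1, hB1⟩ := hX.Ec.isBounded.exists_norm_le
  have hK := Pool.Agent.H80.AJ.KK_pos
  obtain ⟨M, hM⟩ : ∃ M : ℝ, M = max 1 (Pool.Agent.H80.AJ.KK * (ε' / 2)) := ⟨_, rfl⟩
  have hM1 : 1 ≤ M := hM ▸ le_max_left _ _
  have hM2 : Pool.Agent.H80.AJ.KK * (ε' / 2) ≤ M := hM ▸ le_max_right _ _
  obtain ⟨ε, hε, hn⟩ := hX.nc (ε' / 2) M B (half_pos hε')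
  obtain ⟨N, hN⟩ := shk0 h ε' B1 (ρ0 := 0) one_pos (mul_pos hε' hε)
  refine ⟨N, fun k hk z hz hzB G h1 h2 h3 => ?_⟩
  have hrc : ((ε' : ℝ) : ℂ) ≠ 0 := by exact_mod_cast hε'.ne'
  have hmaps : ∀ u ∈ ball (0 : ℂ) 1, f^[k] z + ε' * u ∈ ball (f^[k] z) ε' := by
    intro u hu
    rw [mem_ball_zero_iff] at hu
    rw [mem_ball_iff_norm, add_sub_cancel_left, norm_mul, Complex.norm_real, Real.norm_of_nonneg hε'.le]
    nlinarith [norm_nonneg u]
  have hinj : InjOn G (ball (f^[k] z) ε') := by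
    intro a ha b hb hab
    rw [← (h3 a ha).2, ← (h3 b hb).2, hab]
  have hder : deriv (fun u : ℂ => G (f^[k] z + ε' * u)) 0 = ε' * deriv G (f^[k] z) := by
    have h2 : HasDerivAt (fun u : ℂ => f^[k] z + ε' * u) (ε' * 1) 0 :=
      ((hasDerivAt_id (0 : ℂ)).const_mul (ε' : ℂ)).const_add _
    have h3 : HasDerivAt G (deriv G (f^[k] z)) (f^[k] z + ε' * 0) := by
      rw [mul_zero, add_zero]
      exact (h1.differentiableAt (isOpen_ball.mem_nhds (mem_ball_self hε'))).hasDerivAt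
    have h4 := h3.comp (0 : ℂ) h2
    rw [show (fun u : ℂ => G (f^[k] z + ε' * u)) = G ∘ (fun u : ℂ => f^[k] z + ε' * u) from rfl, h4.deriv]
    ring
  have hs := hN k hk (fun u : ℂ => G (f^[k] z + ε' * u)) (f^[k] z) 0
    (h1.comp (Differentiable.differentiableOn (by fun_prop)) hmaps)
    (fun a ha b hb hab => mul_left_cancel₀ hrc (add_left_cancel (hinj (hmaps a ha) (hmaps b hb) hab)))
    (fun u hu => by
      show ‖f^[k] (G (f^[k] z + ε' * u)) - f^[k] z‖ ≤ ε'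
      rw [(h3 _ (hmaps u hu)).2]
      exact (mem_ball_iff_norm.1 (hmaps u hu)).le)
    (by rw [norm_zero])
    (by
      show ‖G (f^[k] z + ε' * 0)‖ ≤ B1
      rw [mul_zero, add_zero, h2]
      exact hB1 z hz)
  rw [hder, norm_mul, Complex.norm_real, Real.norm_of_nonneg hε'.le] at hs
  have hsub : ball (f^[k] z) (ε' / 2) ⊆ ball (f^[k] z) ε' := ball_subset_ball (by linarith)
  have hd0 : 0 < ‖deriv G (f^[k] z)‖ :=
    norm_pos_iff.2 (Pool.Agent.H43.UB.uh_der isOpen_ball h1 hinj (mem_ball_self hε'))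
  have hc := hn z hz k (f^[k] z) ‖deriv G (f^[k] z)‖ G hzB hd0 (h1.mono hsub) (fun u hu => by
    refine ⟨(h3 u (hsub hu)).1, (h3 u (hsub hu)).2, ?_⟩
    have h5 := Pool.Agent.H80.AJ.distort_lip hε' h1 hinj (ball_subset_closedBall hu)
      (mem_closedBall_self (by linarith)) (mem_closedBall_self (by linarith))
    rw [h2] at h5
    have h6 : ‖u - f^[k] z‖ ≤ ε' / 2 := (mem_ball_iff_norm.1 hu).le
    calc ‖G u - z‖ ≤ Pool.Agent.H80.AJ.KK * ‖deriv G (f^[k] z)‖ * ‖u - f^[k] z‖ := h5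
      _ ≤ Pool.Agent.H80.AJ.KK * ‖deriv G (f^[k] z)‖ * (ε' / 2) := by gcongr
      _ = Pool.Agent.H80.AJ.KK * (ε' / 2) * ‖deriv G (f^[k] z)‖ := by ring
      _ ≤ M * ‖deriv G (f^[k] z)‖ := by gcongr) (by nlinarith)
  nlinarith

/-- typical orbits tend to the postcritical set, uniformly -/
theorem to_P (h : SS f U P Cr δ η ρ) (hX : SX f U P E X hh μ b0) {ε : ℝ} (hε : 0 < ε) :
    ∃ N : ℕ, ∀ k ≥ N, ∀ z ∈ E, f^[k] z ∈ thickening ε P := by
  obtain ⟨A, B, hA, hB⟩ := h.inf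
  obtain ⟨ε', hε'⟩ : ∃ ε' : ℝ, ε' = min ε δ := ⟨_, rfl⟩
  have hε'0 : 0 < ε' := hε' ▸ lt_min hε h.hδ
  have hε'1 : ε' ≤ ε := hε' ▸ min_le_left _ _
  have hε'2 : ε' ≤ δ := hε' ▸ min_le_right _ _
  obtain ⟨N, hN⟩ := no_br h hX hε'0 B
  have key : ∀ k ≥ N, ∀ z ∈ E, ‖f^[k] z‖ ≤ B → f^[k] z ∈ thickening ε' P := by
    intro k hk z hz hzB
    by_contra hno
    have hP : ∀ u ∈ ball (f^[k] z) ε', u ∉ P := by
      intro u hu huP
      rw [mem_thickening_iff] at hno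
      push Not at hno
      have h1 := hno u huP
      rw [mem_ball, dist_comm] at hu
      linarith
    obtain ⟨G, hG1, hG2, hG3⟩ := br_any h hP (show z ∈ oU f U k from fun j _ => hX.EU z hz j) (mem_ball_self hε'0)
    exact hN k hk z hz hzB G hG1 hG2 hG3
  refine ⟨N, fun k hk z hz => ?_⟩
  by_cases hzB : ‖f^[k] z‖ ≤ B
  · exact thickening_mono hε'1 P (key k hk z hz hzB)
  · exfalso
    obtain ⟨m, hm1, hm2⟩ := hB (f^[k] z) (not_le.1 hzB).le fun j => by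
      rw [← Function.iterate_add_apply]
      exact hX.EU z hz _
    rw [← Function.iterate_add_apply] at hm1 hm2
    have h1 := key (m + k) (by omega) z hz hm2
    have h2 := mem_ball_zero_iff.1 (hA (thickening_mono hε'2 P h1))
    linarith

end Pool.Agent.H78.UX.IN
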