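import Pool.Agent.H31.IN.Puc
import Pool.Agent.H31.IU.ToP
import Pool.Agent.H31.IU.Scl

/-!
# THEOREM UD for Julia set = sphere, INI: the simple scales tend to zero

As `H31/IN/Zer`; the case `Sm2` is `no_br`.
-/

set_option autoImplicit false

open Filter Topology Metric Set MeasureTheory

namespace Pool.Agent.H78.UX.IN

open Pool.Agent.H56.UD Pool.Agent.H31.IN Pool.Agent.H43.UB

variable {f : ℂ → ℂ} {U P Cr E : Set ℂ} {δ b0 : ℝ} {η : ℂ → ℂ → ℂ} {ρ : ℝ} {X hh μ : ℂ → ℂ}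

private theorem sq_th {θ : ℝ} (hθ : 0 < θ) (hθ1 : θ < 1) : 0 < √θ ∧ θ < √θ ∧ √θ < 1 := by
  have h1 : 0 < √θ := Real.sqrt_pos.2 hθ
  have h2 : √θ < 1 := by
    rw [Real.sqrt_lt' one_pos]
    linarith
  have h3 := Real.mul_self_sqrt hθ.le
  exact ⟨h1, by nlinarith, h2⟩

/-- the derivative of `β` over the point `√θ` -/
private theorem bt_der {θ : ℝ} (hθ : 0 < θ) (hθ1 : θ < 1) {F : ℂ → ℂ} {D : Set ℂ} {ψ φ β : ℂ → ℂ}
    (h : PU F D θ ψ φ β) {v : ℂ} (hv : ‖v‖ < 1) (hb : β v = ((√θ : ℝ) : ℂ)) :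
    (√θ - θ) * (1 - θ ^ 2) / 4 ≤ ‖deriv β v‖ := by
  obtain ⟨h1, h2, h3⟩ := sq_th hθ hθ1
  have hle : (√θ - θ) * (1 - θ ^ 2) / 4 ≤ 1 := by
    have h4 : (√θ - θ) * (1 - θ ^ 2) ≤ 1 * 1 := by
      apply mul_le_mul
      · linarith
      · nlinarith
      · nlinarith
      · norm_num
    linarith
  rcases h.typ with ht | ⟨α, hα, ht⟩
  · have he : β = fun v => v := funext ht
    rw [he, deriv_id'']
    simpa using hle
  · have hv2 : ‖v‖ ^ 2 < 1 := by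
      have := norm_nonneg v
      nlinarith
    have hαv : ‖(starRingEnd ℂ) α * v ^ 2‖ < 1 := by
      rw [norm_mul, norm_pow, RCLike.norm_conj]
      have := norm_nonneg α
      have := norm_nonneg v
      nlinarith
    have hden : 1 + (starRingEnd ℂ) α * v ^ 2 ≠ 0 := by
      intro h0
      have h5 : (starRingEnd ℂ) α * v ^ 2 = -1 := by linear_combination h0
      rw [h5, norm_neg, norm_one] at hαv
      exact lt_irrefl _ hαv
    have he : β = fun v => (v ^ 2 + α) / (1 + (starRingEnd ℂ) α * v ^ 2) := funext ht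
    have hd : HasDerivAt (fun v : ℂ => (v ^ 2 + α) / (1 + (starRingEnd ℂ) α * v ^ 2))
        (((2 * v) * (1 + (starRingEnd ℂ) α * v ^ 2) - (v ^ 2 + α) * ((starRingEnd ℂ) α * (2 * v))) /
          (1 + (starRingEnd ℂ) α * v ^ 2) ^ 2) v := by
      have h5 : HasDerivAt (fun v : ℂ => v ^ 2) (2 * v) v := by
        simpa using hasDerivAt_pow 2 v
      exact (h5.add_const α).div ((h5.const_mul ((starRingEnd ℂ) α)).const_add 1) hden
    have hαα : (starRingEnd ℂ) α * α = ((‖α‖ ^ 2 : ℝ) : ℂ) := by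
      rw [mul_comm, Complex.mul_conj, Complex.normSq_eq_norm_sq]
    have hnum : ((2 * v) * (1 + (starRingEnd ℂ) α * v ^ 2) - (v ^ 2 + α) * ((starRingEnd ℂ) α * (2 * v))) =
        2 * v * ((1 - ‖α‖ ^ 2 : ℝ) : ℂ) := by
      have h6 : ((1 - ‖α‖ ^ 2 : ℝ) : ℂ) = 1 - (starRingEnd ℂ) α * α := by
        rw [hαα]
        push_cast
        ring
      rw [h6]
      ring
    have hv1 : v ^ 2 * (1 - (√θ : ℝ) * (starRingEnd ℂ) α) = (√θ : ℝ) - α := by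
      have h6 : v ^ 2 + α = (√θ : ℝ) * (1 + (starRingEnd ℂ) α * v ^ 2) := by
        rw [← hb, ht v, div_mul_cancel₀ _ hden]
      linear_combination h6
    have hlow : (√θ - θ) / 2 ≤ ‖v‖ := by
      have h6 : √θ - θ ≤ ‖((√θ : ℝ) : ℂ) - α‖ := by
        have h7 := norm_sub_norm_le ((√θ : ℝ) : ℂ) α
        rw [Complex.norm_real, Real.norm_of_nonneg h1.le] at h7
        linarith
      have h8 : ‖(1 : ℂ) - (√θ : ℝ) * (starRingEnd ℂ) α‖ ≤ 2 := by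
        refine (norm_sub_le _ _).trans ?_
        rw [norm_one, norm_mul, Complex.norm_real, Real.norm_of_nonneg h1.le, RCLike.norm_conj]
        have := norm_nonneg α
        nlinarith
      rw [← hv1, norm_mul, norm_pow] at h6
      have h9 := norm_nonneg v
      have h10 : ‖v‖ ^ 2 * ‖(1 : ℂ) - (√θ : ℝ) * (starRingEnd ℂ) α‖ ≤ ‖v‖ * 2 := by
        apply mul_le_mul _ h8 (norm_nonneg _) h9
        nlinarith
      linarith
    have hup : ‖(1 + (starRingEnd ℂ) α * v ^ 2) ^ 2‖ ≤ 4 := by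
      rw [norm_pow]
      have h6 : ‖1 + (starRingEnd ℂ) α * v ^ 2‖ ≤ 2 := by
        refine (norm_add_le _ _).trans ?_
        rw [norm_one]
        linarith
      have := norm_nonneg (1 + (starRingEnd ℂ) α * v ^ 2)
      nlinarith
    have hdn : 0 < ‖(1 + (starRingEnd ℂ) α * v ^ 2) ^ 2‖ := norm_pos_iff.2 (pow_ne_zero 2 hden)
    have hα2 : 1 - θ ^ 2 ≤ 1 - ‖α‖ ^ 2 := by
      have := norm_nonneg α
      nlinarith
    have hθ2 : 0 < 1 - θ ^ 2 := by nlinarith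
    rw [he, hd.deriv, hnum, norm_div, norm_mul, norm_mul, Complex.norm_real,
      Real.norm_of_nonneg (by linarith), Complex.norm_ofNat, div_le_div_iff₀ (by norm_num) hdn]
    have hsθ : 0 ≤ √θ - θ := by linarith
    calc (√θ - θ) * (1 - θ ^ 2) * ‖(1 + (starRingEnd ℂ) α * v ^ 2) ^ 2‖
        ≤ (√θ - θ) * (1 - θ ^ 2) * 4 := by gcongr
      _ = 2 * ((√θ - θ) / 2) * (1 - θ ^ 2) * 4 := by ring
      _ ≤ 2 * ‖v‖ * (1 - ‖α‖ ^ 2) * 4 := by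
        gcongr

private theorem zer2 (h : SS f U P Cr δ η ρ) (hX : SX f U P E X hh μ b0)
    {𝒰 : Ultrafilter ℕ} (h𝒰 : (𝒰 : Filter ℕ) ≤ atTop) {z : ℂ} (hz : z ∈ E)
    (hzt : ∀ᶠ k in (𝒰 : Filter ℕ), f^[k] z ∈ thickening δ P) {ε0 : ℝ} (hε0 : 0 < ε0)
    (hs : ∀ᶠ k in (𝒰 : Filter ℕ), Sm2 f U P δ z k ε0) : False := by
  obtain ⟨A, B, hA, -⟩ := h.inf
  obtain ⟨N, hN⟩ := no_br h hX hε0 A
  have hge : ∀ᶠ k in (𝒰 : Filter ℕ), N ≤ k := h𝒰 (eventually_ge_atTop N)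
  obtain ⟨k, h1, h2, ⟨G, g1, g2, g3⟩⟩ := (hge.and (hzt.and hs)).exists
  exact hN k h1 z hz (mem_ball_zero_iff.1 (hA h2)).le G g1 g2 fun u hu => ⟨(g3 u hu).1.1, (g3 u hu).2⟩

private theorem zer1 (h : SS f U P Cr δ η ρ) (hX : SX f U P E X hh μ b0) {θ C : ℝ} (hθ : 0 < θ) (hθ1 : θ < 1)
    (hC : 1 ≤ C) {𝒰 : Ultrafilter ℕ} (h𝒰 : (𝒰 : Filter ℕ) ≤ atTop) {δ0 : ℝ} (hδ0 : 0 < δ0) (hδ : δ0 ≤ δ)
    {z : ℂ} (hz : z ∈ E) {x : ℕ → ℂ} {r : ℕ → ℝ} (hx : ∀ k, x k ∈ P)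
    (hr : ∀ k, 0 < r k ∧ r k ≤ δ0) {ε0 : ℝ} (hε0 : 0 < ε0) (hre : ∀ᶠ k in (𝒰 : Filter ℕ), ε0 ≤ r k)
    (hs : ∀ᶠ k in (𝒰 : Filter ℕ), Sm1 f U P P δ θ C z k (x k) (r k)) : False := by
  obtain ⟨hq0, hq1, hq2⟩ := sq_th hθ hθ1
  have hex : ∀ k : ℕ, ∃ (ψ φ β : ℂ → ℂ) (v : ℂ), Sm1 f U P P δ θ C z k (x k) (r k) →
      GD θ C P (x k) (r k) ψ ∧ PU (f^[k]) (dm f U P δ k) θ ψ φ β ∧ ‖v‖ < 1 ∧ φ v = z ∧ ‖β v‖ < θ := by
    intro k
    by_cases hk : Sm1 f U P P δ θ C z k (x k) (r k)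
    · obtain ⟨ψ, φ, β, v, hG⟩ := hk
      exact ⟨ψ, φ, β, v, fun _ => hG⟩
    · exact ⟨id, id, id, 0, fun h1 => absurd h1 hk⟩
  choose ψ φ β v hG using hex
  obtain ⟨ρ0, hρ0, hρ01, hbd0⟩ := bt_bd hθ hθ1 hθ.le hθ1
  obtain ⟨ρ1, hρ1, hρ11, hbd1⟩ := bt_bd hθ hθ1 hq0.le hq2
  have ht : Tendsto (fun k => deriv (φ k) 0) (𝒰 : Filter ℕ) (𝓝 0) := by
    refine shk h h𝒰 (δ1 := δ0) (B := ‖z‖) hρ01 (y := x) (v := v) ?_ ?_
    · filter_upwards [hs] with k hk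
      obtain ⟨h1, h2, h3, h4, h5⟩ := hG k hk
      refine ⟨h2.diff, h2.inj, fun u hu => ?_⟩
      obtain ⟨h6, h7⟩ := h2.val u hu
      rw [h7]
      have h8 := h1.out ⟨β k u, mem_ball_zero_iff.2 (bt_lt hθ hθ1 h2 (mem_ball_zero_iff.1 hu)), rfl⟩
      exact (mem_ball_iff_norm.1 h8).le.trans (hr k).2
    · filter_upwards [hs] with k hk
      obtain ⟨h1, h2, h3, h4, h5⟩ := hG k hk
      exact ⟨hbd0 h2 (v k) h3 h5.le, le_of_eq (by rw [h4])⟩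
  obtain ⟨c, hc, hcd⟩ := Pool.Agent.H65.UB.gd_dist hθ hθ1 hC
  obtain ⟨t, htd⟩ : ∃ t : ℝ, t = c * ε0 := ⟨_, rfl⟩
  have ht0 : 0 < t := htd ▸ mul_pos hc hε0
  obtain ⟨ρm, hρmd⟩ : ∃ ρm : ℝ, ρm = max ρ0 ρ1 := ⟨_, rfl⟩
  have hρm1 : ρm < 1 := hρmd ▸ max_lt hρ01 hρ11
  have hρm0 : 0 < ρm := hρmd ▸ lt_max_of_lt_left hρ0
  have hm0 : ρ0 ≤ ρm := hρmd ▸ le_max_left _ _
  have hm1 : ρ1 ≤ ρm := hρmd ▸ le_max_right _ _
  obtain ⟨N, hN⟩ := exists_nat_ge (4 / (1 - ρm))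
  have hKK := Pool.Agent.H80.AJ.KK_pos
  have hKN : 0 < Pool.Agent.H80.AJ.KK ^ N := pow_pos hKK N
  obtain ⟨K, hKd⟩ : ∃ K : ℝ, K = Pool.Agent.H80.AJ.KK ^ N := ⟨_, rfl⟩
  have hK0 : 0 < K := hKd ▸ hKN
  have hchain : ∀ k : ℕ, Sm1 f U P P δ θ C z k (x k) (r k) → ∀ w w' : ℂ, ‖w‖ ≤ ρm → ‖w'‖ ≤ ρm →
      ‖deriv (φ k) w‖ ≤ K * ‖deriv (φ k) w'‖ := by
    intro k hk w w' hw hw'
    obtain ⟨h1, h2, h3, h4, h5⟩ := hG k hk
    rw [hKd]
    refine Pool.Agent.H65.UB.chain (δ := 1 - ρm) (by linarith) N ?_ ?_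
    · have h6 : ‖w - w'‖ ≤ 2 := (norm_sub_le _ _).trans (by linarith)
      have h7 : 4 ≤ N * (1 - ρm) := by
        rwa [div_le_iff₀ (by linarith)] at hN
      linarith
    · intro y hy
      have h6 : y ∈ closedBall (0 : ℂ) ρm :=
        (convex_closedBall (0 : ℂ) ρm).segment_subset
          (mem_closedBall_zero_iff.2 hw) (mem_closedBall_zero_iff.2 hw') hy
      have h7 : ball y (1 - ρm) ⊆ ball (0 : ℂ) 1 := by
        intro q hq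
        rw [mem_ball_iff_norm] at hq
        rw [mem_closedBall_zero_iff] at h6
        rw [mem_ball_zero_iff]
        have h8 := norm_sub_norm_le q y
        linarith
      exact ⟨h2.diff.mono h7, h2.inj.mono h7⟩
  obtain ⟨A0, hA0d⟩ : ∃ A0 : ℝ, A0 = 2 * δ0 / (1 - √θ) * (2 / (1 - ρ1)) := ⟨_, rfl⟩
  have hA00 : 0 < A0 := by
    rw [hA0d]
    have h1 : 0 < 1 - √θ := by linarith
    have h2 : 0 < 1 - ρ1 := by linarith
    positivity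
  obtain ⟨A1, hA1d⟩ : ∃ A1 : ℝ, A1 = c * ε0 / 2 * ((√θ - θ) * (1 - θ ^ 2) / 4) := ⟨_, rfl⟩
  have hθ2 : 0 < 1 - θ ^ 2 := by nlinarith
  have hA10 : 0 < A1 := by
    rw [hA1d]
    have h1 : 0 < √θ - θ := by linarith
    positivity
  obtain ⟨M, hMd⟩ : ∃ M : ℝ, M = max (Pool.Agent.H80.AJ.KK * (K / A1) * (t / 2) + K * 2) (K * A0) := ⟨_, rfl⟩
  have hM1 : Pool.Agent.H80.AJ.KK * (K / A1) * (t / 2) + K * 2 ≤ M := hMd ▸ le_max_left _ _
  have hM2 : K * A0 ≤ M := hMd ▸ le_max_right _ _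
  obtain ⟨ε, hε, hn⟩ := ncx h hX (M := M) (half_pos ht0)
  have hev : ∀ᶠ k in (𝒰 : Filter ℕ), ε ≤ ‖deriv (φ k) 0‖ := by
    filter_upwards [hs, hre] with k hk hkr
    obtain ⟨h1, h2, h3, h4, h5⟩ := hG k hk
    have hrk := (hr k).1
    have hu1 : ‖((√θ : ℝ) : ℂ)‖ = √θ := by
      rw [Complex.norm_real, Real.norm_of_nonneg hq0.le]
    have hu1b : ((√θ : ℝ) : ℂ) ∈ ball (0 : ℂ) 1 := by
      rw [mem_ball_zero_iff, hu1]
      exact hq2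
    obtain ⟨v1, hv1, hv1b⟩ := bt_sur hθ hθ1 h2 (u := ((√θ : ℝ) : ℂ)) (by rw [hu1]; exact hq2)
    have hv1ρ : ‖v1‖ ≤ ρ1 := hbd1 h2 v1 hv1 (by rw [hv1b, hu1])
    have hv1B : v1 ∈ ball (0 : ℂ) 1 := mem_ball_zero_iff.2 hv1
    have hball := hcd P (x k) (r k) (ψ k) hrk h1 ((√θ : ℝ) : ℂ) hu1
    have hballt : ball (ψ k ((√θ : ℝ) : ℂ)) t ⊆ ψ k '' Pool.Agent.H65.UB.An θ := by
      refine (ball_subset_ball ?_).trans hball
      rw [htd]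
      gcongr
    have hAn1 : Pool.Agent.H65.UB.An θ ⊆ ball (0 : ℂ) 1 := fun u hu => mem_ball_zero_iff.2 hu.2
    have hthick : ball (ψ k ((√θ : ℝ) : ℂ)) t ⊆ thickening δ P := by
      refine hballt.trans ((image_mono hAn1).trans (h1.out.trans ?_))
      refine (ball_subset_ball ((hr k).2.trans hδ)).trans (ball_subset_thickening (hx k) δ)
    have hoff : ∀ u ∈ ball (ψ k ((√θ : ℝ) : ℂ)) t, u ∉ P := by
      intro u hu
      obtain ⟨w, hw, rfl⟩ := hballt hu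
      exact h1.col w hw.1 hw.2
    obtain ⟨hφ1, hφ2⟩ := h2.val v1 hv1B
    rw [hv1b] at hφ2
    obtain ⟨G, hG1, hG2, hG3⟩ := br_ball h hthick hoff hφ1 (by rw [hφ2]; exact mem_ball_self ht0)
    rw [hφ2] at hG2
    have hGi : InjOn G (ball (ψ k ((√θ : ℝ) : ℂ)) t) := by
      intro a ha b hb hab
      rw [← (hG3 a ha).2, ← (hG3 b hb).2, hab]
    have hψd : DifferentiableAt ℂ (ψ k) ((√θ : ℝ) : ℂ) := h1.diff.differentiableAt (isOpen_ball.mem_nhds hu1b)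
    have hβd : DifferentiableAt ℂ (β k) v1 :=
      (bt_diff hθ hθ1 h2).differentiableAt (isOpen_ball.mem_nhds hv1B)
    have e1 : deriv (f^[k]) (G (ψ k ((√θ : ℝ) : ℂ))) * deriv G (ψ k ((√θ : ℝ) : ℂ)) = 1 := by
      have h6 := der_lift h isOpen_ball (H := fun u => u) hG1 hG3 (mem_ball_self ht0)
      rw [h6, deriv_id'']
    have e2 : deriv (f^[k]) (φ k v1) * deriv (φ k) v1 = deriv (ψ k) ((√θ : ℝ) : ℂ) * deriv (β k) v1 := by
      have h6 := der_lift h isOpen_ball (H := fun u => ψ k (β k u)) h2.diff h2.val hv1B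
      rw [h6]
      have h7 := deriv_comp v1 (h₂ := ψ k) (h := β k) (by rw [hv1b]; exact hψd) hβd
      rw [hv1b] at h7
      exact h7
    rw [hG2] at e1
    have e3 : deriv (φ k) v1 = (deriv (ψ k) ((√θ : ℝ) : ℂ) * deriv (β k) v1) * deriv G (ψ k ((√θ : ℝ) : ℂ)) := by
      rw [← e2]
      linear_combination -(deriv (φ k) v1) * e1
    have e4 : ‖deriv (φ k) v1‖ = ‖deriv (ψ k) ((√θ : ℝ) : ℂ)‖ * ‖deriv (β k) v1‖ *
        ‖deriv G (ψ k ((√θ : ℝ) : ℂ))‖ := by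
      rw [e3, norm_mul, norm_mul]
    -- upper bounds
    have b1 : ‖deriv (ψ k) ((√θ : ℝ) : ℂ)‖ ≤ 2 * δ0 / (1 - √θ) := by
      have hsub : ball ((√θ : ℝ) : ℂ) (1 - √θ) ⊆ ball (0 : ℂ) 1 := by
        intro q hq
        rw [mem_ball_iff_norm] at hq
        rw [mem_ball_zero_iff]
        have h8 := norm_sub_norm_le q ((√θ : ℝ) : ℂ)
        rw [hu1] at h8
        linarith
      refine Complex.norm_deriv_le_div_of_mapsTo_ball (h1.diff.mono hsub) ?_ (by linarith)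
      intro q hq
      have h6 := mem_ball_iff_norm.1 (h1.out ⟨q, hsub hq, rfl⟩)
      have h7 := mem_ball_iff_norm.1 (h1.out ⟨_, hu1b, rfl⟩)
      rw [mem_closedBall_iff_norm]
      have h8 : ψ k q - ψ k ((√θ : ℝ) : ℂ) = (ψ k q - x k) - (ψ k ((√θ : ℝ) : ℂ) - x k) := by ring
      rw [h8]
      have h9 := (hr k).2
      refine (norm_sub_le _ _).trans ?_
      linarith
    have b2 : ‖deriv (β k) v1‖ ≤ 2 / (1 - ρ1) := by
      have hsub : ball v1 (1 - ρ1) ⊆ ball (0 : ℂ) 1 := by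
        intro q hq
        rw [mem_ball_iff_norm] at hq
        rw [mem_ball_zero_iff]
        have h8 := norm_sub_norm_le q v1
        linarith
      refine Complex.norm_deriv_le_div_of_mapsTo_ball ((bt_diff hθ hθ1 h2).mono hsub) ?_ (by linarith)
      intro q hq
      have h6 := bt_lt hθ hθ1 h2 (mem_ball_zero_iff.1 (hsub hq))
      have h7 := bt_lt hθ hθ1 h2 hv1
      rw [mem_closedBall_iff_norm]
      refine (norm_sub_le _ _).trans ?_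
      linarith
    -- lower bounds
    have b3 : c * ε0 / 2 ≤ ‖deriv (ψ k) ((√θ : ℝ) : ℂ)‖ := by
      have h6 := Pool.Agent.H80.AJ.dist_upper one_pos h1.diff h1.inj hu1b (mul_pos hc hrk)
        (hball.trans (image_mono hAn1))
      have h7 : c * ε0 ≤ c * r k := by gcongr
      linarith
    have b4 := bt_der hθ hθ1 h2 hv1 hv1b
    have hsθ : 0 < √θ - θ := by linarith
    have c1 : ‖deriv (φ k) v1‖ ≤ A0 * ‖deriv G (ψ k ((√θ : ℝ) : ℂ))‖ := by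
      rw [e4, hA0d]
      gcongr
    have c2 : A1 * ‖deriv G (ψ k ((√θ : ℝ) : ℂ))‖ ≤ ‖deriv (φ k) v1‖ := by
      rw [e4, hA1d]
      gcongr
    have d1 := hchain k hk 0 v1 (by rw [norm_zero]; exact hρm0.le) (hv1ρ.trans hm1)
    have d2 := hchain k hk v1 0 (hv1ρ.trans hm1) (by rw [norm_zero]; exact hρm0.le)
    have c3 : ‖deriv G (ψ k ((√θ : ℝ) : ℂ))‖ ≤ K / A1 * ‖deriv (φ k) 0‖ := by
      have h6 : A1 * ‖deriv G (ψ k ((√θ : ℝ) : ℂ))‖ ≤ K * ‖deriv (φ k) 0‖ := c2.trans d2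
      rw [div_mul_eq_mul_div, le_div_iff₀ hA10]
      linarith
    have d3 : ‖φ k v1 - z‖ ≤ K * 2 * ‖deriv (φ k) 0‖ := by
      have hvk : ‖v k‖ ≤ ρ0 := hbd0 h2 (v k) h3 h5.le
      have h6 : ‖φ k v1 - φ k (v k)‖ ≤ (K * ‖deriv (φ k) 0‖) * ‖v1 - v k‖ := by
        refine Convex.norm_image_sub_le_of_norm_deriv_le (𝕜 := ℂ) (s := closedBall (0 : ℂ) ρm) ?_ ?_
          (convex_closedBall _ _) (mem_closedBall_zero_iff.2 (hvk.trans hm0))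
          (mem_closedBall_zero_iff.2 (hv1ρ.trans hm1))
        · intro q hq
          rw [mem_closedBall_zero_iff] at hq
          exact h2.diff.differentiableAt (isOpen_ball.mem_nhds (mem_ball_zero_iff.2 (by linarith)))
        · intro q hq
          rw [mem_closedBall_zero_iff] at hq
          exact hchain k hk q 0 hq (by rw [norm_zero]; exact hρm0.le)
      rw [h4] at h6
      have h7 : ‖v1 - v k‖ ≤ 2 := (norm_sub_le _ _).trans (by linarith)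
      calc ‖φ k v1 - z‖ ≤ (K * ‖deriv (φ k) 0‖) * ‖v1 - v k‖ := h6
        _ ≤ (K * ‖deriv (φ k) 0‖) * 2 := by gcongr
        _ = _ := by ring
    have hsub2 : ball (ψ k ((√θ : ℝ) : ℂ)) (t / 2) ⊆ ball (ψ k ((√θ : ℝ) : ℂ)) t :=
      ball_subset_ball (by linarith)
    refine hn z hz k (ψ k ((√θ : ℝ) : ℂ)) ‖deriv (φ k) 0‖ G (hsub2.trans hthick) ?_ (hG1.mono hsub2) ?_ ?_
    · exact norm_pos_iff.2 (uh_der isOpen_ball h2.diff h2.inj (mem_ball_self one_pos))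
    · intro u hu
      refine ⟨(hG3 u (hsub2 hu)).1, (hG3 u (hsub2 hu)).2, ?_⟩
      have h6 := Pool.Agent.H80.AJ.distort_lip ht0 hG1 hGi (ball_subset_closedBall hu)
        (mem_closedBall_self (by linarith)) (mem_closedBall_self (by linarith))
      rw [hG2] at h6
      have h7 : ‖u - ψ k ((√θ : ℝ) : ℂ)‖ ≤ t / 2 := (mem_ball_iff_norm.1 hu).le
      have h8 : G u - z = (G u - φ k v1) + (φ k v1 - z) := by ring
      rw [h8]
      calc ‖(G u - φ k v1) + (φ k v1 - z)‖ ≤ ‖G u - φ k v1‖ + ‖φ k v1 - z‖ := norm_add_le _ _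
        _ ≤ Pool.Agent.H80.AJ.KK * (K / A1 * ‖deriv (φ k) 0‖) * (t / 2) + K * 2 * ‖deriv (φ k) 0‖ := by
          gcongr
          refine h6.trans ?_
          gcongr
        _ = (Pool.Agent.H80.AJ.KK * (K / A1) * (t / 2) + K * 2) * ‖deriv (φ k) 0‖ := by ring
        _ ≤ M * ‖deriv (φ k) 0‖ := by gcongr
    · calc ‖deriv (φ k) 0‖ ≤ K * ‖deriv (φ k) v1‖ := d1
        _ ≤ K * (A0 * ‖deriv G (ψ k ((√θ : ℝ) : ℂ))‖) := by gcongr
        _ = K * A0 * ‖deriv G (ψ k ((√θ : ℝ) : ℂ))‖ := by ring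
        _ ≤ M * ‖deriv G (ψ k ((√θ : ℝ) : ℂ))‖ := by gcongr
  have hev2 : ∀ᶠ k in (𝒰 : Filter ℕ), ‖deriv (φ k) 0‖ < ε := by
    have h1 := ht.norm
    rw [norm_zero] at h1
    exact h1.eventually (gt_mem_nhds hε)
  obtain ⟨k, hk1, hk2⟩ := (hev.and hev2).exists
  linarith

theorem zer (h : SS f U P Cr δ η ρ) (hX : SX f U P E X hh μ b0) {θ C : ℝ} (hθ : 0 < θ) (hθ1 : θ < 1) (hC : 1 ≤ C)
    {𝒰 : Ultrafilter ℕ} (h𝒰 : (𝒰 : Filter ℕ) ≤ atTop) {δ0 : ℝ} (hδ0 : 0 < δ0) (hδ : δ0 ≤ δ)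
    {z : ℂ} (hz : z ∈ E) (hzt : ∀ᶠ k in (𝒰 : Filter ℕ), f^[k] z ∈ thickening δ P) {x : ℕ → ℂ} {r : ℕ → ℝ}
    (hx : ∀ k, x k ∈ P) (hr : ∀ k, 0 < r k ∧ r k ≤ δ0)
    (hor : ∀ᶠ k in (𝒰 : Filter ℕ), Sm1 f U P P δ θ C z k (x k) (r k) ∨ Sm2 f U P δ z k (r k)) :
    Tendsto r (𝒰 : Filter ℕ) (𝓝 0) := by
  rw [Metric.tendsto_nhds]
  by_contra hnt
  push Not at hnt
  obtain ⟨ε0, hε0, hne⟩ := hnt
  have hre : ∀ᶠ k in (𝒰 : Filter ℕ), ε0 ≤ r k := by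
    have h1 : ∀ᶠ k in (𝒰 : Filter ℕ), ε0 ≤ dist (r k) 0 := hne
    filter_upwards [h1] with k hk
    rwa [Real.dist_eq, sub_zero, abs_of_pos (hr k).1] at hk
  rcases Ultrafilter.eventually_or.1 hor with h1 | h2
  · exact zer1 h hX hθ hθ1 hC h𝒰 hδ0 hδ hz hx hr hε0 hre h1
  · refine zer2 h hX h𝒰 hz hzt hε0 ?_
    filter_upwards [h2, hre] with j hj hj2
    exact sm2_mono hj hε0 hj2

end Pool.Agent.H78.UX.IN
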